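import Mathlib
import Pool.Agent.L0h50.AB.Core

/-!
# The maximal inequality for the sums over the primes of functions of the reduction
-/

set_option autoImplicit false

namespace Pool.Agent.L0h50.NA

open Finset Pool.Agent.Y722.HS Pool.Agent.Y722.LS

section
variable {ι : Type} [Fintype ι] [DecidableEq ι]

/-- The primes up to `y` which are greater than `x`. -/
noncomputable def PI (x y : ℕ) : Finset ℕ := (PR y).filter fun p => x < p

theorem mem_PI {x y p : ℕ} : p ∈ PI x y ↔ x < p ∧ p ≤ y ∧ p.Prime := by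
  unfold PI
  rw [Finset.mem_filter, mem_PR]
  tauto

theorem card_PI (x y : ℕ) : (PI x y).card ≤ y - x := by
  have h : PI x y ⊆ Finset.Ioc x y := fun p hp => by
    rw [Finset.mem_Ioc]
    exact ⟨(mem_PI.mp hp).1, (mem_PI.mp hp).2.1⟩
  refine (Finset.card_le_card h).trans ?_
  rw [Nat.card_Ioc]

/-- One block. -/
theorem block {A W : ℝ} (hA : 0 ≤ A) (hW : 0 ≤ W) (g : ∀ p : ℕ, (ι → ZMod p) → ℝ)
    (hg : ∀ p : ℕ, p.Prime → ∀ y, |g p y| ≤ A)
    (hg0 : ∀ (p : ℕ) [Fact p.Prime], ∑ y, g p y = 0) (w : ℕ → ℝ) (hw : ∀ p : ℕ, p.Prime → |w p| ≤ W * Real.log p)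
    (H x y : ℕ) (hxy : x ≤ y) (hy : y ^ 3 ≤ H) :
    EB H (fun c : ι → ℤ => (∑ p ∈ PI x y, w p * g p (red p c)) ^ 2) ≤
      2 * 2 ^ Fintype.card ι * A ^ 2 * W ^ 2 * ((y - x : ℕ) : ℝ) * Real.log y ^ 2 := by
  rcases Nat.eq_zero_or_pos y with h0 | hy0
  · subst h0
    have : PI x 0 = ∅ := by
      ext p
      rw [mem_PI]
      simp only [Finset.notMem_empty, iff_false]
      omega
    simp [this, EB]
  have hyH : y * y ≤ H := by
    calc y * y = y ^ 2 := by ring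
      _ ≤ y ^ 3 := Nat.pow_le_pow_right hy0 (by norm_num)
      _ ≤ H := hy
  have hlogy : 0 ≤ Real.log y := Real.log_natCast_nonneg y
  have hpqH : ∀ p ∈ PI x y, ∀ q ∈ PI x y, p * q ≤ 2 * H + 1 := by
    intro p hp q hq
    have := Nat.mul_le_mul (mem_PI.mp hp).2.1 (mem_PI.mp hq).2.1
    omega
  have hpH : ∀ p ∈ PI x y, p ≤ 2 * H + 1 := by
    intro p hp
    have h1 := hpqH p hp p hp
    have h2 : p ≤ p * p := Nat.le_mul_self p
    omega
  have h1 : ∀ c : ι → ℤ, (∑ p ∈ PI x y, w p * g p (red p c)) ^ 2 = ∑ p ∈ PI x y, ∑ q ∈ PI x y,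
      (w p * w q) * (g p (red p c) * g q (red q c)) := by
    intro c
    rw [pow_two, Finset.sum_mul_sum]
    refine Finset.sum_congr rfl fun p _ => Finset.sum_congr rfl fun q _ => by ring
  simp only [h1]
  rw [EB_sum]
  simp only [EB_sum, Pool.Agent.Y722.HS.EB_mul]
  have hEM : ∀ (p : ℕ) [Fact p.Prime], EM p (fun c : ι → ZMod p => |g p c|) ≤ A := by
    intro p hF
    rw [← EM_const (ι := ι) p A]
    exact EM_mono p _ _ fun c => hg p hF.out c
  have hEM0 : ∀ (p : ℕ) [Fact p.Prime], 0 ≤ EM p (fun c : ι → ZMod p => |g p c|) :=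
    fun p _ => EM_nonneg p _ fun c => abs_nonneg _
  have hEM2 : ∀ (p : ℕ) [Fact p.Prime], EM p (fun c : ι → ZMod p => g p c * g p c) ≤ A ^ 2 := by
    intro p hF
    rw [← EM_const (ι := ι) p (A ^ 2)]
    refine EM_mono p _ _ fun c => ?_
    rw [← pow_two, ← sq_abs]
    exact pow_le_pow_left₀ (abs_nonneg _) (hg p hF.out c) 2
  set Q : ℝ := 2 ^ Fintype.card ι * A ^ 2 / (2 * H + 1) with hQ
  have hQ0 : 0 ≤ Q := by positivity
  have hl : ∀ p ∈ PI x y, |w p| ≤ W * Real.log y := by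
    intro p hp
    have hp0 : (0 : ℝ) < p := by exact_mod_cast (mem_PI.mp hp).2.2.pos
    have hpy : (p : ℝ) ≤ y := by exact_mod_cast (mem_PI.mp hp).2.1
    refine (hw p (mem_PI.mp hp).2.2).trans ?_
    gcongr
  have h2 : ∀ p ∈ PI x y, ∀ q ∈ PI x y,
      (w p * w q) * EB H (fun c : ι → ℤ => g p (red p c) * g q (red q c)) ≤
      (if q = p then (W * Real.log y) ^ 2 * (2 ^ Fintype.card ι * A ^ 2) else 0) +
        (W * Real.log y * y) * (W * Real.log y * y) * Q := by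
    intro p hp q hq
    have hpp := (mem_PI.mp hp).2.2
    have hqq := (mem_PI.mp hq).2.2
    have := Fact.mk hpp
    have := Fact.mk hqq
    have hpy : (p : ℝ) ≤ y := by exact_mod_cast (mem_PI.mp hp).2.1
    have hqy : (q : ℝ) ≤ y := by exact_mod_cast (mem_PI.mp hq).2.1
    have hlp := hl p hp
    have hlq := hl q hq
    have hrest : 0 ≤ (W * Real.log y * y) * (W * Real.log y * y) * Q := by positivity
    by_cases hpq : q = p
    · subst hpq
      rw [if_pos rfl]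
      have h3 := EB_le H q (hpH q hq) (fun c : ι → ZMod q => g q c * g q c) (fun c => mul_self_nonneg _)
      have h4 : 0 ≤ EB H (fun c : ι → ℤ => g q (red q c) * g q (red q c)) := by
        unfold EB
        exact div_nonneg (Finset.sum_nonneg fun c _ => mul_self_nonneg _) (by positivity)
      have h5 : w q * w q ≤ (W * Real.log y) ^ 2 := by
        rw [← pow_two, ← sq_abs]
        exact pow_le_pow_left₀ (abs_nonneg _) hlq 2
      have h6 : w q * w q * EB H (fun c : ι → ℤ => g q (red q c) * g q (red q c)) ≤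
          (W * Real.log y) ^ 2 * (2 ^ Fintype.card ι * A ^ 2) := by
        refine mul_le_mul h5 (h3.trans ?_) h4 (by positivity)
        exact mul_le_mul_of_nonneg_left (hEM2 q) (by positivity)
      linarith
    · rw [if_neg hpq, zero_add]
      have h3 := EB_two (ι := ι) H p q ((Nat.coprime_primes hpp hqq).mpr (fun h => hpq h.symm)) (hpqH p hp q hq)
        (fun c => g p c) (fun c => g q c)
      have h4 : EM p (fun c : ι → ZMod p => g p c) = 0 := by rw [EM, hg0 p, zero_div]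
      rw [h4, zero_mul, sub_zero] at h3
      have h5 : |EB H (fun c : ι → ℤ => g p (red p c) * g q (red q c))| ≤ (p : ℝ) * q * Q := by
        refine h3.trans ?_
        calc _ ≤ 2 ^ Fintype.card ι * ((p : ℝ) * q / (2 * H + 1)) * (A * A) := by
              apply mul_le_mul_of_nonneg_left _ (by positivity)
              exact mul_le_mul (hEM p) (hEM q) (hEM0 q) hA
          _ = _ := by rw [hQ]; ring
      calc _ ≤ |w p| * |w q| * |EB H (fun c : ι → ℤ => g p (red p c) * g q (red q c))| := by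
            rw [← abs_mul, ← abs_mul]
            exact le_abs_self _
        _ ≤ (W * Real.log y) * (W * Real.log y) * ((p : ℝ) * q * Q) := by gcongr
        _ ≤ (W * Real.log y) * (W * Real.log y) * ((y : ℝ) * y * Q) := by gcongr
        _ = _ := by ring
  refine (Finset.sum_le_sum fun p hp => Finset.sum_le_sum fun q hq => h2 p hp q hq).trans ?_
  have hcard : ((PI x y).card : ℝ) ≤ ((y - x : ℕ) : ℝ) := by exact_mod_cast card_PI x y
  have hcard2 : ((y - x : ℕ) : ℝ) ≤ y := by exact_mod_cast Nat.sub_le y x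
  have h3 : ∀ p ∈ PI x y, ∑ q ∈ PI x y,
      ((if q = p then (W * Real.log y) ^ 2 * (2 ^ Fintype.card ι * A ^ 2) else 0) +
        (W * Real.log y * y) * (W * Real.log y * y) * Q) =
      (W * Real.log y) ^ 2 * (2 ^ Fintype.card ι * A ^ 2) +
        (PI x y).card * ((W * Real.log y * y) * (W * Real.log y * y) * Q) := by
    intro p hp
    rw [Finset.sum_add_distrib, Finset.sum_ite_eq' (PI x y) p, if_pos hp, Finset.sum_const, nsmul_eq_mul]
  rw [Finset.sum_congr rfl h3, Finset.sum_const, nsmul_eq_mul]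
  have hH1 : (y : ℝ) ^ 3 ≤ 2 * H + 1 := by
    have : (y : ℝ) ^ 3 ≤ H := by exact_mod_cast hy
    have h0 : (0 : ℝ) ≤ H := by positivity
    linarith
  have h4 : ((PI x y).card : ℝ) * ((W * Real.log y * y) * (W * Real.log y * y) * Q) ≤
      (W * Real.log y) ^ 2 * (2 ^ Fintype.card ι * A ^ 2) := by
    have h5 : (y : ℝ) * (y * y * Q) ≤ 2 ^ Fintype.card ι * A ^ 2 := by
      rw [hQ]
      have h6 : (y : ℝ) * (y * y * (2 ^ Fintype.card ι * A ^ 2 / (2 * H + 1))) =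
          2 ^ Fintype.card ι * A ^ 2 * ((y : ℝ) ^ 3 / (2 * H + 1)) := by ring
      rw [h6]
      apply mul_le_of_le_one_right (by positivity)
      rw [div_le_one (by positivity)]
      exact hH1
    calc _ ≤ (y : ℝ) * ((W * Real.log y * y) * (W * Real.log y * y) * Q) := by
          gcongr
          exact_mod_cast hcard.trans hcard2
      _ = (W * Real.log y) ^ 2 * ((y : ℝ) * (y * y * Q)) := by ring
      _ ≤ _ := by gcongr
  calc _ ≤ ((y - x : ℕ) : ℝ) * ((W * Real.log y) ^ 2 * (2 ^ Fintype.card ι * A ^ 2) +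
        (W * Real.log y) ^ 2 * (2 ^ Fintype.card ι * A ^ 2)) := by gcongr
    _ = _ := by ring

end

/-- The values at `x`, from the values on the dyadic intervals. -/
theorem dyadic {E : Type*} [SeminormedAddCommGroup E] (F : ℕ → E) (hF : F 0 = 0) (J x : ℕ) (hx : x < 2 ^ J) :
    ‖F x‖ ^ 2 ≤ J * ∑ i ∈ range J, ∑ k ∈ range (2 ^ (J - i)), ‖F (2 ^ i * (k + 1)) - F (2 ^ i * k)‖ ^ 2 := by
  set X : ℕ → ℕ := fun i => 2 ^ i * (x / 2 ^ i) with hX
  have h0 : X 0 = x := by simp [hX]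
  have hJ : X J = 0 := by
    rw [hX]
    simp [Nat.div_eq_of_lt hx]
  have h1 : F x = ∑ i ∈ range J, (F (X i) - F (X (i + 1))) := by
    rw [Finset.sum_range_sub', h0, hJ, hF, sub_zero]
  have h2 : ∀ i ∈ range J, ‖F (X i) - F (X (i + 1))‖ ^ 2 ≤
      ∑ k ∈ range (2 ^ (J - i)), ‖F (2 ^ i * (k + 1)) - F (2 ^ i * k)‖ ^ 2 := by
    intro i hi
    rw [Finset.mem_range] at hi
    set m := x / 2 ^ i with hm
    have hm1 : m < 2 ^ (J - i) := by
      rw [hm, Nat.div_lt_iff_lt_mul (by positivity), ← pow_add]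
      rwa [Nat.sub_add_cancel hi.le]
    have hm2 : X (i + 1) = 2 ^ i * (2 * (m / 2)) := by
      rw [hX, hm]
      simp only
      rw [Nat.div_div_eq_div_mul, pow_succ]
      ring
    have hm3 : X i = 2 ^ i * m := rfl
    rcases Nat.even_or_odd' m with ⟨k, hk | hk⟩
    · have : X (i + 1) = X i := by
        rw [hm2, hm3, hk]
        congr 1
        omega
      rw [this, sub_self, norm_zero]
      have : 0 ≤ ∑ k ∈ range (2 ^ (J - i)), ‖F (2 ^ i * (k + 1)) - F (2 ^ i * k)‖ ^ 2 :=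
        Finset.sum_nonneg fun _ _ => by positivity
      simpa using this
    · have h3 : X i = 2 ^ i * (2 * k + 1) := by rw [hm3, hk]
      have h4 : X (i + 1) = 2 ^ i * (2 * k) := by
        rw [hm2, hk]
        congr 2
        omega
      rw [h3, h4]
      exact Finset.single_le_sum (f := fun k => ‖F (2 ^ i * (k + 1)) - F (2 ^ i * k)‖ ^ 2)
        (fun _ _ => by positivity) (Finset.mem_range.mpr (by omega))
  have h3 : ‖F x‖ ≤ ∑ i ∈ range J, ‖F (X i) - F (X (i + 1))‖ := by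
    rw [h1]
    exact norm_sum_le _ _
  calc ‖F x‖ ^ 2 ≤ (∑ i ∈ range J, ‖F (X i) - F (X (i + 1))‖) ^ 2 := by gcongr
    _ ≤ (range J).card * ∑ i ∈ range J, ‖F (X i) - F (X (i + 1))‖ ^ 2 := sq_sum_le_card_mul_sum_sq
    _ ≤ _ := by
        rw [Finset.card_range]
        gcongr with i hi
        exact h2 i hi

section
variable {ι : Type} [Fintype ι] [DecidableEq ι]

/-- The sum over the primes up to `x`. -/
noncomputable def FF (f : ∀ p : ℕ, (ι → ZMod p) → ℂ) (w : ℕ → ℂ) (c : ι → ℤ) (x : ℕ) : ℂ :=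
  ∑ p ∈ PR x, w p * f p (red p c)

theorem FF_zero (f : ∀ p : ℕ, (ι → ZMod p) → ℂ) (w : ℕ → ℂ) (c : ι → ℤ) : FF f w c 0 = 0 := by
  have : PR 0 = ∅ := by
    ext p
    rw [mem_PR]
    simp only [Finset.notMem_empty, iff_false]
    intro h
    have := h.2.pos
    omega
  simp [FF, this]

theorem FF_sub (f : ∀ p : ℕ, (ι → ZMod p) → ℂ) (w : ℕ → ℂ) (c : ι → ℤ) {x y : ℕ} (h : x ≤ y) :
    FF f w c y - FF f w c x = ∑ p ∈ PI x y, w p * f p (red p c) := by
  have h1 : PR y = PR x ∪ PI x y := by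
    ext p
    rw [Finset.mem_union, mem_PR, mem_PR, mem_PI]
    constructor
    · intro hp
      by_cases h2 : p ≤ x
      · exact Or.inl ⟨h2, hp.2⟩
      · exact Or.inr ⟨by omega, hp⟩
    · rintro (hp | hp)
      · exact ⟨hp.1.trans h, hp.2⟩
      · exact hp.2
  have h2 : Disjoint (PR x) (PI x y) := by
    rw [Finset.disjoint_left]
    intro p hp hq
    have := (mem_PR.mp hp).1
    have := (mem_PI.mp hq).1
    omega
  unfold FF
  rw [h1, Finset.sum_union h2, add_sub_cancel_left]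

theorem block_complex {A W : ℝ} (hA : 0 ≤ A) (hW : 0 ≤ W) (f : ∀ p : ℕ, (ι → ZMod p) → ℂ)
    (hf : ∀ p : ℕ, p.Prime → ∀ y, ‖f p y‖ ≤ A)
    (hf0 : ∀ (p : ℕ) [Fact p.Prime], ∑ y, f p y = 0) (w : ℕ → ℂ) (hw : ∀ p : ℕ, p.Prime → ‖w p‖ ≤ W * Real.log p)
    (H x y : ℕ) (hxy : x ≤ y) (hy : y ^ 3 ≤ H) :
    EB H (fun c : ι → ℤ => ‖FF f w c y - FF f w c x‖ ^ 2) ≤
      16 * 2 ^ Fintype.card ι * A ^ 2 * W ^ 2 * ((y - x : ℕ) : ℝ) * Real.log y ^ 2 := by
  have hre : ∀ (p : ℕ) [Fact p.Prime], ∑ y, (f p y).re = 0 := by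
    intro p hp
    rw [← Complex.re_sum, hf0 p, Complex.zero_re]
  have him : ∀ (p : ℕ) [Fact p.Prime], ∑ y, (f p y).im = 0 := by
    intro p hp
    rw [← Complex.im_sum, hf0 p, Complex.zero_im]
  have b1 := block hA hW (fun p y => (f p y).re) (fun p hp y => (Complex.abs_re_le_norm _).trans (hf p hp y))
    hre (fun p => (w p).re) (fun p hp => (Complex.abs_re_le_norm _).trans (hw p hp)) H x y hxy hy
  have b2 := block hA hW (fun p y => (f p y).im) (fun p hp y => (Complex.abs_im_le_norm _).trans (hf p hp y))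
    him (fun p => (w p).im) (fun p hp => (Complex.abs_im_le_norm _).trans (hw p hp)) H x y hxy hy
  have b3 := block hA hW (fun p y => (f p y).im) (fun p hp y => (Complex.abs_im_le_norm _).trans (hf p hp y))
    him (fun p => (w p).re) (fun p hp => (Complex.abs_re_le_norm _).trans (hw p hp)) H x y hxy hy
  have b4 := block hA hW (fun p y => (f p y).re) (fun p hp y => (Complex.abs_re_le_norm _).trans (hf p hp y))
    hre (fun p => (w p).im) (fun p hp => (Complex.abs_im_le_norm _).trans (hw p hp)) H x y hxy hy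
  have h1 : EB H (fun c : ι → ℤ => ‖FF f w c y - FF f w c x‖ ^ 2) ≤
      EB H (fun c : ι → ℤ => (2 * (∑ p ∈ PI x y, (w p).re * (f p (red p c)).re) ^ 2 +
        2 * (∑ p ∈ PI x y, (w p).im * (f p (red p c)).im) ^ 2) +
        (2 * (∑ p ∈ PI x y, (w p).re * (f p (red p c)).im) ^ 2 +
        2 * (∑ p ∈ PI x y, (w p).im * (f p (red p c)).re) ^ 2)) := by
    apply EB_mono
    intro c
    rw [FF_sub f w c hxy, Complex.sq_norm, Complex.normSq_apply, Complex.re_sum, Complex.im_sum]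
    simp only [Complex.mul_re, Complex.mul_im, Finset.sum_sub_distrib, Finset.sum_add_distrib]
    nlinarith [sq_nonneg ((∑ p ∈ PI x y, (w p).re * (f p (red p c)).re) +
      (∑ p ∈ PI x y, (w p).im * (f p (red p c)).im)), sq_nonneg ((∑ p ∈ PI x y, (w p).re * (f p (red p c)).im) -
      (∑ p ∈ PI x y, (w p).im * (f p (red p c)).re))]
  refine h1.trans ?_
  rw [EB_add, EB_add, EB_add, Pool.Agent.Y722.HS.EB_mul, Pool.Agent.Y722.HS.EB_mul,
    Pool.Agent.Y722.HS.EB_mul, Pool.Agent.Y722.HS.EB_mul]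
  linarith

/-- The sum over the dyadic intervals. -/
noncomputable def DY (f : ∀ p : ℕ, (ι → ZMod p) → ℂ) (w : ℕ → ℂ) (J : ℕ) (c : ι → ℤ) : ℝ :=
  ∑ i ∈ range J, ∑ k ∈ range (2 ^ (J - i)), ‖FF f w c (2 ^ i * (k + 1)) - FF f w c (2 ^ i * k)‖ ^ 2

theorem DY_nonneg (f : ∀ p : ℕ, (ι → ZMod p) → ℂ) (w : ℕ → ℂ) (J : ℕ) (c : ι → ℤ) : 0 ≤ DY f w J c :=
  Finset.sum_nonneg fun _ _ => Finset.sum_nonneg fun _ _ => by positivity

theorem EB_DY {A W : ℝ} (hA : 0 ≤ A) (hW : 0 ≤ W) (f : ∀ p : ℕ, (ι → ZMod p) → ℂ)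
    (hf : ∀ p : ℕ, p.Prime → ∀ y, ‖f p y‖ ≤ A)
    (hf0 : ∀ (p : ℕ) [Fact p.Prime], ∑ y, f p y = 0) (w : ℕ → ℂ) (hw : ∀ p : ℕ, p.Prime → ‖w p‖ ≤ W * Real.log p)
    (H J : ℕ) (hJ : 8 ^ J ≤ H) :
    EB H (fun c : ι → ℤ => DY f w J c) ≤
      16 * 2 ^ Fintype.card ι * A ^ 2 * W ^ 2 * 2 ^ J * (J : ℝ) ^ 3 := by
  unfold DY
  rw [EB_sum]
  simp only [EB_sum]
  have hl2 : Real.log 2 ≤ 1 := by
    have := Real.log_two_lt_d9
    linarith
  have hl20 : 0 ≤ Real.log 2 := Real.log_nonneg (by norm_num)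
  have h1 : ∀ i ∈ range J, ∀ k ∈ range (2 ^ (J - i)),
      EB H (fun c : ι → ℤ => ‖FF f w c (2 ^ i * (k + 1)) - FF f w c (2 ^ i * k)‖ ^ 2) ≤
      16 * 2 ^ Fintype.card ι * A ^ 2 * W ^ 2 * 2 ^ i * (J : ℝ) ^ 2 := by
    intro i hi k hk
    rw [Finset.mem_range] at hi hk
    have h2 : 2 ^ i * (k + 1) ≤ 2 ^ J := by
      calc 2 ^ i * (k + 1) ≤ 2 ^ i * 2 ^ (J - i) := Nat.mul_le_mul_left _ hk
        _ = 2 ^ J := by rw [← pow_add]; congr 1; omega
    have h3 : (2 ^ i * (k + 1)) ^ 3 ≤ H := by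
      calc (2 ^ i * (k + 1)) ^ 3 ≤ (2 ^ J) ^ 3 := Nat.pow_le_pow_left h2 3
        _ = 8 ^ J := by rw [← pow_mul, mul_comm, pow_mul]; norm_num
        _ ≤ H := hJ
    refine (block_complex hA hW f hf hf0 w hw H (2 ^ i * k) (2 ^ i * (k + 1))
      (Nat.mul_le_mul_left _ (by omega)) h3).trans ?_
    have h4 : 2 ^ i * (k + 1) - 2 ^ i * k = 2 ^ i := by
      rw [Nat.mul_add, mul_one, Nat.add_sub_cancel_left]
    rw [h4]
    have h5 : Real.log ((2 ^ i * (k + 1) : ℕ) : ℝ) ≤ J := by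
      have h6 : (((2 ^ i * (k + 1) : ℕ)) : ℝ) ≤ 2 ^ J := by exact_mod_cast h2
      have h7 : (0 : ℝ) < ((2 ^ i * (k + 1) : ℕ) : ℝ) := by positivity
      calc _ ≤ Real.log (2 ^ J) := Real.log_le_log h7 h6
        _ = J * Real.log 2 := by rw [Real.log_pow]
        _ ≤ J * 1 := by gcongr
        _ = _ := mul_one _
    have h6 : 0 ≤ Real.log ((2 ^ i * (k + 1) : ℕ) : ℝ) := Real.log_natCast_nonneg _
    have h7 : (((2 ^ i : ℕ)) : ℝ) = 2 ^ i := by push_cast; rfl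
    rw [h7]
    gcongr
  refine (Finset.sum_le_sum fun i hi => Finset.sum_le_sum fun k hk => h1 i hi k hk).trans ?_
  have h2 : ∀ i ∈ range J, ∑ k ∈ range (2 ^ (J - i)),
      16 * 2 ^ Fintype.card ι * A ^ 2 * W ^ 2 * 2 ^ i * (J : ℝ) ^ 2 =
      16 * 2 ^ Fintype.card ι * A ^ 2 * W ^ 2 * 2 ^ J * (J : ℝ) ^ 2 := by
    intro i hi
    rw [Finset.mem_range] at hi
    rw [Finset.sum_const, Finset.card_range, nsmul_eq_mul]
    have h3 : (2 : ℝ) ^ J = 2 ^ (J - i) * 2 ^ i := by rw [← pow_add]; congr 1; omega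
    rw [h3]
    push_cast
    ring
  rw [Finset.sum_congr rfl h2, Finset.sum_const, Finset.card_range, nsmul_eq_mul]
  apply le_of_eq
  ring

/-- The majorant. -/
noncomputable def MM (f : ∀ p : ℕ, (ι → ZMod p) → ℂ) (w : ℕ → ℂ) (H : ℕ) (c : ι → ℤ) : ℝ :=
  ∑ J ∈ Finset.Ioo 0 (Nat.log 8 H + 1), 128 / (2 ^ J * (J : ℝ) ^ 5) * DY f w J c

theorem MM_nonneg (f : ∀ p : ℕ, (ι → ZMod p) → ℂ) (w : ℕ → ℂ) (H : ℕ) (c : ι → ℤ) : 0 ≤ MM f w H c :=
  Finset.sum_nonneg fun J _ => mul_nonneg (by positivity) (DY_nonneg f w J c)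

theorem EB_MM {A W : ℝ} (hA : 0 ≤ A) (hW : 0 ≤ W) (f : ∀ p : ℕ, (ι → ZMod p) → ℂ)
    (hf : ∀ p : ℕ, p.Prime → ∀ y, ‖f p y‖ ≤ A)
    (hf0 : ∀ (p : ℕ) [Fact p.Prime], ∑ y, f p y = 0) (w : ℕ → ℂ) (hw : ∀ p : ℕ, p.Prime → ‖w p‖ ≤ W * Real.log p)
    (H : ℕ) : EB H (fun c : ι → ℤ => MM f w H c) ≤ 4096 * 2 ^ Fintype.card ι * A ^ 2 * W ^ 2 := by
  unfold MM
  rw [EB_sum]
  simp only [Pool.Agent.Y722.HS.EB_mul]
  have h1 : ∀ J ∈ Finset.Ioo 0 (Nat.log 8 H + 1),
      128 / (2 ^ J * (J : ℝ) ^ 5) * EB H (fun c : ι → ℤ => DY f w J c) ≤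
      2048 * 2 ^ Fintype.card ι * A ^ 2 * W ^ 2 * ((J : ℝ) ^ 2)⁻¹ := by
    intro J hJ
    rw [Finset.mem_Ioo] at hJ
    have hJ0 : (0 : ℝ) < J := by exact_mod_cast hJ.1
    have h2 : 8 ^ J ≤ H := by
      have h3 : J ≤ Nat.log 8 H := by omega
      have h4 : H ≠ 0 := by
        rintro rfl
        rw [Nat.log_zero_right] at h3
        omega
      exact (Nat.pow_le_pow_right (by norm_num) h3).trans (Nat.pow_log_le_self 8 h4)
    calc _ ≤ 128 / (2 ^ J * (J : ℝ) ^ 5) * (16 * 2 ^ Fintype.card ι * A ^ 2 * W ^ 2 * 2 ^ J * (J : ℝ) ^ 3) := by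
          gcongr
          exact EB_DY hA hW f hf hf0 w hw H J h2
      _ = _ := by
          field_simp
          ring
  refine (Finset.sum_le_sum h1).trans ?_
  rw [← Finset.mul_sum]
  have h2 := sum_Ioo_inv_sq_le (α := ℝ) 0 (Nat.log 8 H + 1)
  calc _ ≤ 2048 * 2 ^ Fintype.card ι * A ^ 2 * W ^ 2 * (2 / ((0 : ℕ) + 1)) := by gcongr
    _ = _ := by push_cast; ring

/-- **The maximal inequality.** -/
theorem FF_le (f : ∀ p : ℕ, (ι → ZMod p) → ℂ) (w : ℕ → ℂ) (H : ℕ) (c : ι → ℤ) (x : ℕ) (hx : 1 ≤ x)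
    (hxH : 8 * x ^ 3 ≤ H) : ‖FF f w c x‖ ^ 2 ≤ MM f w H c * x * (1 + Real.log x) ^ 6 := by
  set J := Nat.log 2 x + 1 with hJ
  have hx0 : (0 : ℝ) < x := by exact_mod_cast hx
  have h1 : x < 2 ^ J := Nat.lt_pow_succ_log_self (by norm_num) x
  have h2 : 2 ^ (J - 1) ≤ x := by
    rw [hJ, Nat.add_sub_cancel]
    exact Nat.pow_log_le_self 2 (by omega)
  have h3 : 2 ^ J ≤ 2 * x := by
    have : 2 ^ J = 2 * 2 ^ (J - 1) := by rw [← pow_succ', hJ, Nat.add_sub_cancel]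
    omega
  have h4 : 8 ^ J ≤ H := by
    calc 8 ^ J = (2 ^ J) ^ 3 := by rw [← pow_mul, mul_comm, pow_mul]; norm_num
      _ ≤ (2 * x) ^ 3 := Nat.pow_le_pow_left h3 3
      _ = 8 * x ^ 3 := by ring
      _ ≤ H := hxH
  have h5 : J ∈ Finset.Ioo 0 (Nat.log 8 H + 1) := by
    rw [Finset.mem_Ioo]
    refine ⟨by omega, ?_⟩
    have := Nat.le_log_of_pow_le (by norm_num) h4
    omega
  have hJ0 : (0 : ℝ) < J := by
    have : 0 < J := by omega
    exact_mod_cast this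
  have h6 : 128 / (2 ^ J * (J : ℝ) ^ 5) * DY f w J c ≤ MM f w H c :=
    Finset.single_le_sum (f := fun J : ℕ => 128 / (2 ^ J * (J : ℝ) ^ 5) * DY f w J c)
      (fun J _ => mul_nonneg (by positivity) (DY_nonneg f w J c)) h5
  have h7 := dyadic (FF f w c) (FF_zero f w c) J x h1
  have h8 : (J : ℝ) ≤ 2 * (1 + Real.log x) := by
    have h9 : ((Nat.log 2 x : ℕ) : ℝ) * Real.log 2 ≤ Real.log x := by
      rw [← Real.log_pow]
      apply Real.log_le_log (by positivity)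
      exact_mod_cast Nat.pow_log_le_self 2 (by omega)
    have h10 : (1 : ℝ) / 2 ≤ Real.log 2 := by
      have := Real.log_two_gt_d9
      linarith
    have h11 : ((Nat.log 2 x : ℕ) : ℝ) * (1 / 2) ≤ Real.log x := by
      refine le_trans ?_ h9
      gcongr
    rw [hJ]
    push_cast
    linarith
  have h9 : (J : ℝ) ^ 6 ≤ 64 * (1 + Real.log x) ^ 6 := by
    calc (J : ℝ) ^ 6 ≤ (2 * (1 + Real.log x)) ^ 6 := by gcongr
      _ = _ := by ring
  have h10 : (2 : ℝ) ^ J ≤ 2 * x := by exact_mod_cast h3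
  have hD := DY_nonneg f w J c
  have hM := MM_nonneg f w H c
  have h11 : DY f w J c ≤ MM f w H c * (2 ^ J * (J : ℝ) ^ 5) / 128 := by
    rw [le_div_iff₀ (by norm_num)]
    rw [div_mul_eq_mul_div, div_le_iff₀ (by positivity)] at h6
    linarith
  calc ‖FF f w c x‖ ^ 2 ≤ J * DY f w J c := h7
    _ ≤ J * (MM f w H c * (2 ^ J * (J : ℝ) ^ 5) / 128) := by gcongr
    _ = MM f w H c * 2 ^ J * (J : ℝ) ^ 6 / 128 := by ring
    _ ≤ MM f w H c * (2 * x) * (64 * (1 + Real.log x) ^ 6) / 128 := by gcongr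
    _ = _ := by ring

end

end Pool.Agent.L0h50.NA
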