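import Mathlib
import Pool.Agent.L0h50.NA.Max

/-!
# Partial summation, and the tails of the sums with logarithms
-/

set_option autoImplicit false

namespace Pool.Agent.L0h50.NA

open Finset Pool.Agent.Y722.HS Pool.Agent.Y722.LS

/-- The difference of two consecutive powers. -/
theorem cpow_sub (s : ℂ) (hs : 0 ≤ s.re) (n : ℕ) (hn : 1 ≤ n) :
    ‖(((n + 1 : ℕ)) : ℂ) ^ (-s) - (n : ℂ) ^ (-s)‖ ≤ ‖s‖ * (n : ℝ) ^ (-s.re - 1) := by
  have hn0 : (0 : ℝ) < n := by exact_mod_cast hn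
  by_cases hs0 : s = 0
  · subst hs0
    simp
  have h1 : ∀ x ∈ Set.Icc (n : ℝ) (n + 1), HasDerivWithinAt (fun y : ℝ => (y : ℂ) ^ (-s))
      (-s * (x : ℂ) ^ (-s - 1)) (Set.Icc (n : ℝ) (n + 1)) x := by
    intro x hx
    have hx0 : x ≠ 0 := (lt_of_lt_of_le hn0 hx.1).ne'
    have h3 : HasDerivAt (fun y : ℝ => (y : ℂ) ^ (-s)) (-s * (x : ℂ) ^ (-s - 1)) x :=
      hasDerivAt_ofReal_cpow_const hx0 (neg_ne_zero.mpr hs0)
    exact h3.hasDerivWithinAt
  have h2 : ∀ x ∈ Set.Icc (n : ℝ) (n + 1), ‖-s * (x : ℂ) ^ (-s - 1)‖ ≤ ‖s‖ * (n : ℝ) ^ (-s.re - 1) := by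
    intro x hx
    have hx0 : 0 < x := lt_of_lt_of_le hn0 hx.1
    rw [norm_mul, norm_neg, Complex.norm_cpow_eq_rpow_re_of_pos hx0]
    have e : (-s - 1).re = -s.re - 1 := by simp
    rw [e]
    exact mul_le_mul_of_nonneg_left (Real.rpow_le_rpow_of_nonpos hn0 hx.1 (by linarith)) (norm_nonneg _)
  have h3 := (convex_Icc (n : ℝ) (n + 1)).norm_image_sub_le_of_norm_hasDerivWithin_le h1 h2
    (Set.left_mem_Icc.mpr (by linarith)) (Set.right_mem_Icc.mpr (by linarith))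
  simp only [Complex.ofReal_add, Complex.ofReal_natCast, Complex.ofReal_one] at h3
  have e : ‖(n : ℝ) + 1 - n‖ = 1 := by simp
  rw [e, mul_one] at h3
  push_cast
  exact h3

/-- Partial summation. -/
theorem abel (a : ℕ → ℂ) (y : ℕ) (B : ℕ → ℝ)
    (hB : ∀ x : ℕ, x ≤ y → ‖∑ n ∈ Finset.range (x + 1), a n‖ ≤ B x)
    (ha0 : a 0 = 0) (s : ℂ) (hs : 0 ≤ s.re) (hy : 1 ≤ y) :
    ‖∑ n ∈ Finset.range (y + 1), a n * (n : ℂ) ^ (-s)‖ ≤
      B y * (y : ℝ) ^ (-s.re) + ‖s‖ * ∑ n ∈ Finset.Ico 1 y, B n * (n : ℝ) ^ (-s.re - 1) := by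
  set G : ℕ → ℂ := fun x => ∑ n ∈ Finset.range x, a n with hG
  have h1 : ∑ n ∈ Finset.range (y + 1), a n * (n : ℂ) ^ (-s) =
      (y : ℂ) ^ (-s) * G (y + 1) - ∑ n ∈ Finset.range y, (((n + 1 : ℕ) : ℂ) ^ (-s) - (n : ℂ) ^ (-s)) * G (n + 1) := by
    have h2 := Finset.sum_range_by_parts (fun n : ℕ => (n : ℂ) ^ (-s)) a (y + 1)
    simp only [smul_eq_mul, Nat.add_sub_cancel] at h2
    rw [← h2]
    exact Finset.sum_congr rfl fun n _ => mul_comm _ _
  have hy0 : (0 : ℝ) < y := by exact_mod_cast hy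
  have h3 : ‖(y : ℂ) ^ (-s) * G (y + 1)‖ ≤ B y * (y : ℝ) ^ (-s.re) := by
    rw [norm_mul, ← Complex.ofReal_natCast, Complex.norm_cpow_eq_rpow_re_of_pos hy0, Complex.neg_re, mul_comm]
    gcongr
    exact hB y le_rfl
  have h4 : ‖∑ n ∈ Finset.range y, (((n + 1 : ℕ) : ℂ) ^ (-s) - (n : ℂ) ^ (-s)) * G (n + 1)‖ ≤
      ‖s‖ * ∑ n ∈ Finset.Ico 1 y, B n * (n : ℝ) ^ (-s.re - 1) := by
    have h5 : ∑ n ∈ Finset.range y, (((n + 1 : ℕ) : ℂ) ^ (-s) - (n : ℂ) ^ (-s)) * G (n + 1) =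
        ∑ n ∈ Finset.Ico 1 y, (((n + 1 : ℕ) : ℂ) ^ (-s) - (n : ℂ) ^ (-s)) * G (n + 1) := by
      rw [Finset.range_eq_Ico, ← Finset.sum_Ioo_add_eq_sum_Ico (by omega)]
      have h6 : G (0 + 1) = 0 := by simp [hG, ha0]
      rw [h6, mul_zero, add_zero]
      rfl
    rw [h5, Finset.mul_sum]
    refine (norm_sum_le _ _).trans (Finset.sum_le_sum fun n hn => ?_)
    rw [Finset.mem_Ico] at hn
    have h7 := cpow_sub s hs n hn.1
    have h8 := hB n hn.2.le
    rw [norm_mul]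
    calc _ ≤ (‖s‖ * (n : ℝ) ^ (-s.re - 1)) * B n := by
          apply mul_le_mul h7 h8 (norm_nonneg _) (by positivity)
      _ = _ := by ring
  rw [h1]
  refine (norm_sub_le _ _).trans ?_
  linarith

theorem theta_dyadic (k : ℕ) (s : Finset ℕ) (hs : ∀ p ∈ s, p.Prime ∧ Nat.log 2 p = k) :
    ∑ p ∈ s, Real.log (p : ℝ) ≤ Real.log 4 * 2 ^ (k + 1) := by
  have h1 : ∀ p ∈ s, p < 2 ^ (k + 1) := by
    intro p hp
    obtain ⟨hp1, hp2⟩ := hs p hp
    rw [← hp2]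
    exact Nat.lt_pow_succ_log_self (by norm_num) p
  have h3 : ∑ p ∈ s, Real.log (p : ℝ) ≤ Chebyshev.theta (2 ^ (k + 1)) := by
    unfold Chebyshev.theta
    apply Finset.sum_le_sum_of_subset_of_nonneg
    · intro p hp
      have a2 := h1 p hp
      simp only [Finset.mem_filter, Finset.mem_Ioc]
      refine ⟨⟨(hs p hp).1.pos, ?_⟩, (hs p hp).1⟩
      have : ⌊(2 : ℝ) ^ (k + 1)⌋₊ = 2 ^ (k + 1) := by
        have := Nat.floor_natCast (R := ℝ) (2 ^ (k + 1))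
        push_cast at this
        exact this
      rw [this]
      exact a2.le
    · intro p hp _
      exact Real.log_nonneg (by exact_mod_cast (Finset.mem_filter.mp hp).2.one_lt.le)
  exact h3.trans (Chebyshev.theta_le_log4_mul_x (x := (2 : ℝ) ^ (k + 1)) (by positivity))

/-- The sum over the primes from `N` on, with logarithms. -/
theorem tail_log (N : ℕ) (hN : 1 ≤ N) (ε : ℝ) (h0 : 0 < ε) (h1 : ε ≤ 1) (s : Finset ℕ)
    (hs : ∀ p ∈ s, p.Prime ∧ N ≤ p) :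
    ∑ p ∈ s, Real.log p * (p : ℝ) ^ (-1 - ε) ≤ 12 * ((N : ℝ) ^ (-ε) / ε) := by
  set K := Nat.log 2 N with hK
  have hN0 : (0 : ℝ) < N := by exact_mod_cast hN
  set L := s.sup (fun p => Nat.log 2 p) + 1 with hL
  have hmaps : ∀ p ∈ s, Nat.log 2 p ∈ Finset.Ico K (K + L) := by
    intro p hp
    rw [Finset.mem_Ico]
    refine ⟨Nat.log_mono_right (hs p hp).2, ?_⟩
    have : Nat.log 2 p ≤ s.sup (fun p => Nat.log 2 p) := Finset.le_sup (f := fun p => Nat.log 2 p) hp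
    omega
  rw [← Finset.sum_fiberwise_of_maps_to hmaps]
  set r : ℝ := (2 : ℝ) ^ (-ε) with hr
  have hr0 : 0 < r := by positivity
  have hr1 : r < 1 := by
    have := one_sub_two_rpow ε h0.le h1
    linarith
  have h2 : ∀ k ∈ Finset.Ico K (K + L), ∑ p ∈ s with Nat.log 2 p = k, Real.log p * (p : ℝ) ^ (-1 - ε) ≤
      2 * Real.log 4 * r ^ k := by
    intro k hk
    have h3 := theta_dyadic k (s.filter (fun p => Nat.log 2 p = k)) (by
      intro p hp
      rw [Finset.mem_filter] at hp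
      exact ⟨(hs p hp.1).1, hp.2⟩)
    have h4 : ∀ p ∈ s.filter (fun p => Nat.log 2 p = k), Real.log p * (p : ℝ) ^ (-1 - ε) ≤
        Real.log p * ((1 / 2 ^ k) * r ^ k) := by
      intro p hp
      rw [Finset.mem_filter] at hp
      have hp1 : (1 : ℝ) ≤ p := by exact_mod_cast (hs p hp.1).1.one_lt.le
      have h5 : (2 : ℝ) ^ k ≤ p := by
        have := Nat.pow_log_le_self 2 (hs p hp.1).1.ne_zero
        rw [hp.2] at this
        exact_mod_cast this
      have h6 : (p : ℝ) ^ (-1 - ε) ≤ ((2 : ℝ) ^ k) ^ (-1 - ε) :=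
        Real.rpow_le_rpow_of_nonpos (by positivity) h5 (by linarith)
      refine mul_le_mul_of_nonneg_left (h6.trans (le_of_eq ?_)) (Real.log_nonneg hp1)
      rw [hr, ← Real.rpow_natCast, ← Real.rpow_natCast, ← Real.rpow_mul (by norm_num),
        ← Real.rpow_mul (by norm_num), one_div, ← Real.rpow_neg (by norm_num),
        ← Real.rpow_add (by norm_num)]
      congr 1
      ring
    refine (Finset.sum_le_sum h4).trans ?_
    rw [← Finset.sum_mul]
    calc _ ≤ (Real.log 4 * 2 ^ (k + 1)) * ((1 / 2 ^ k) * r ^ k) := by gcongr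
      _ = _ := by
          rw [pow_succ]
          field_simp
  refine (Finset.sum_le_sum h2).trans ?_
  rw [← Finset.mul_sum]
  have h3 : ∑ k ∈ Finset.Ico K (K + L), r ^ k ≤ r ^ K * (1 / (1 - r)) := by
    have h4 : ∑ k ∈ Finset.Ico K (K + L), r ^ k = r ^ K * ∑ k ∈ Finset.range L, r ^ k := by
      rw [Finset.sum_Ico_eq_sum_range, Nat.add_sub_cancel_left, Finset.mul_sum]
      exact Finset.sum_congr rfl fun k _ => pow_add _ _ _
    rw [h4]
    apply mul_le_mul_of_nonneg_left _ (by positivity)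
    have h5 : Summable fun k : ℕ => r ^ k := summable_geometric_of_lt_one hr0.le hr1
    refine (h5.sum_le_tsum _ fun _ _ => by positivity).trans (le_of_eq ?_)
    rw [tsum_geometric_of_lt_one hr0.le hr1, one_div]
  have h4 : 1 / (1 - r) ≤ 2 / ε := by
    rw [div_le_div_iff₀ (by linarith) h0]
    have := one_sub_two_rpow ε h0.le h1
    linarith
  have h5 : r ^ K ≤ 2 * (N : ℝ) ^ (-ε) := by
    have h6 : (N : ℝ) ≤ 2 ^ (K + 1) := by
      have : N < 2 ^ (K + 1) := Nat.lt_pow_succ_log_self (by norm_num) N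
      exact_mod_cast this.le
    have h7 : ((2 : ℝ) ^ (K + 1)) ^ (-ε) ≤ (N : ℝ) ^ (-ε) :=
      Real.rpow_le_rpow_of_nonpos hN0 h6 (by linarith)
    have h8 : ((2 : ℝ) ^ (K + 1)) ^ (-ε) = r ^ K * r := by
      rw [← pow_succ, hr, ← Real.rpow_natCast, ← Real.rpow_natCast, ← Real.rpow_mul (by norm_num),
        ← Real.rpow_mul (by norm_num)]
      congr 1
      ring
    have h9 : 1 / 2 ≤ r := by
      rw [hr, Real.rpow_neg (by norm_num), one_div]
      apply inv_anti₀ (by positivity)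
      calc (2 : ℝ) ^ ε ≤ (2 : ℝ) ^ (1 : ℝ) := Real.rpow_le_rpow_of_exponent_le (by norm_num) h1
        _ = 2 := Real.rpow_one _
    rw [h8] at h7
    have h10 : r ^ K * (1 / 2) ≤ r ^ K * r := by gcongr
    linarith
  have h6 : Real.log 4 ≤ 1.4 := by
    rw [show (4 : ℝ) = 2 ^ 2 by norm_num, Real.log_pow]
    have := Real.log_two_lt_d9
    push_cast
    linarith
  have h60 : 0 ≤ Real.log 4 := Real.log_nonneg (by norm_num)
  calc 2 * Real.log 4 * ∑ k ∈ Finset.Ico K (K + L), r ^ k ≤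
        2 * 1.4 * (2 * (N : ℝ) ^ (-ε) * (2 / ε)) := by
        gcongr
        refine h3.trans ?_
        gcongr
    _ = 11.2 * ((N : ℝ) ^ (-ε) / ε) := by ring
    _ ≤ _ := by
        have : 0 ≤ (N : ℝ) ^ (-ε) / ε := by positivity
        linarith

theorem summable_log {ε : ℝ} (h0 : 0 < ε) (h1 : ε ≤ 1) :
    Summable fun p : Nat.Primes => Real.log ((p : ℕ) : ℝ) * ((p : ℕ) : ℝ) ^ (-1 - ε) := by
  apply summable_of_sum_le (c := 12 * (((1 : ℕ) : ℝ) ^ (-ε) / ε))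
  · intro p
    have hp1 : (1 : ℝ) ≤ ((p : ℕ) : ℝ) := by exact_mod_cast p.2.one_lt.le
    exact mul_nonneg (Real.log_nonneg hp1) (by positivity)
  · intro u
    have h2 := tail_log 1 le_rfl ε h0 h1 (u.image (fun p : Nat.Primes => (p : ℕ))) (by
      intro q hq
      obtain ⟨p, _, rfl⟩ := Finset.mem_image.mp hq
      exact ⟨p.2, p.2.one_lt.le⟩)
    have h3 : ∑ q ∈ u.image (fun p : Nat.Primes => (p : ℕ)), Real.log (q : ℝ) * (q : ℝ) ^ (-1 - ε) =
        ∑ p ∈ u, Real.log ((p : ℕ) : ℝ) * ((p : ℕ) : ℝ) ^ (-1 - ε) :=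
      Finset.sum_image (fun a _ b _ h => Subtype.ext h)
    rw [h3] at h2
    exact h2

/-- The tail of a sum over the primes, with logarithms. -/
theorem tail_gen_log (f : ℕ → ℂ) (K : ℝ) (hK : 0 ≤ K) (ε : ℝ) (hε : 0 < ε) (hε1 : ε ≤ 1)
    (hf : ∀ p : ℕ, p.Prime → ‖f p‖ ≤ K * (Real.log p * (p : ℝ) ^ (-1 - ε))) (y : ℕ) :
    Summable (fun p : Nat.Primes => f p) ∧
      ‖∑' p : Nat.Primes, f p - ∑ p ∈ PR y, f p‖ ≤ K * (12 * (((y + 1 : ℕ) : ℝ) ^ (-ε) / ε)) := by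
  have hg : Summable fun p : Nat.Primes => K * (Real.log ((p : ℕ) : ℝ) * ((p : ℕ) : ℝ) ^ (-1 - ε)) :=
    (summable_log hε hε1).mul_left _
  have h1 : Summable fun p : Nat.Primes => f p :=
    Summable.of_norm_bounded hg fun p => hf p p.2
  refine ⟨h1, ?_⟩
  set S : Finset Nat.Primes := (PR y).subtype Nat.Prime with hS
  have hsum : ∑ p ∈ S, f (p : ℕ) = ∑ p ∈ PR y, f p :=
    Finset.sum_subtype_of_mem f fun p hp => (mem_PR.mp hp).2
  have hSmem : ∀ q : Nat.Primes, q ∈ S ↔ (q : ℕ) ≤ y := by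
    intro q
    exact (Finset.mem_subtype (p := Nat.Prime) (s := PR y) (a := q)).trans
      (mem_PR.trans ⟨fun h => h.1, fun h => ⟨h, q.2⟩⟩)
  have h2 := h1.sum_add_tsum_subtype_compl S
  have h3 : ‖∑' p : {p : Nat.Primes // p ∉ S}, f (p : Nat.Primes)‖ ≤
      K * (12 * (((y + 1 : ℕ) : ℝ) ^ (-ε) / ε)) := by
    have h4 : Summable fun p : {p : Nat.Primes // p ∉ S} =>
        K * (Real.log (((p : Nat.Primes) : ℕ) : ℝ) * (((p : Nat.Primes) : ℕ) : ℝ) ^ (-1 - ε)) :=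
      hg.comp_injective Subtype.val_injective
    refine (tsum_of_norm_bounded h4.hasSum fun p => hf p p.1.2).trans ?_
    refine h4.tsum_le_of_sum_le fun t => ?_
    rw [← Finset.mul_sum]
    refine mul_le_mul_of_nonneg_left ?_ hK
    have h5 := tail_log (y + 1) (by omega) ε hε hε1
      (t.image (fun p : {p : Nat.Primes // p ∉ S} => ((p : Nat.Primes) : ℕ))) (by
        intro q hq
        obtain ⟨p, _, rfl⟩ := Finset.mem_image.mp hq
        refine ⟨p.1.2, ?_⟩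
        have h6 : ¬ ((p.1 : Nat.Primes) : ℕ) ≤ y := fun h => p.2 ((hSmem p.1).mpr h)
        omega)
    have h6 : ∑ q ∈ t.image (fun p : {p : Nat.Primes // p ∉ S} => ((p : Nat.Primes) : ℕ)),
        Real.log (q : ℝ) * (q : ℝ) ^ (-1 - ε) =
        ∑ p ∈ t, Real.log (((p : Nat.Primes) : ℕ) : ℝ) * (((p : Nat.Primes) : ℕ) : ℝ) ^ (-1 - ε) :=
      Finset.sum_image (fun a _ b _ h => Subtype.ext (Subtype.ext h))
    rw [h6] at h5
    exact h5
  rw [← h2, hsum, add_sub_cancel_left]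
  exact h3

end Pool.Agent.L0h50.NA
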