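import Mathlib
import Pool.Agent.L0h50.NA.Abel

/-!
# The sums over the primes of a member and of the mean
-/

set_option autoImplicit false

namespace Pool.Agent.L0h50.NA

open Finset Pool.Agent.Y722.HS Pool.Agent.Y722.LS Pool.Agent.L0h50.AB

theorem norm_theta {ρ : ℕ} {θ : ℕ → Fin ρ → ℂ} (hθ : ∀ p i, ‖θ p i‖ ≤ 1) (p : ℕ) : ‖∑ i, θ p i‖ ≤ ρ := by
  refine (norm_sum_le _ _).trans ((Finset.sum_le_sum fun i _ => hθ p i).trans ?_)
  simp

/-- The constant in the strip. -/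
noncomputable def CC (η : ℝ) : ℝ := (1 + 6 / η) ^ 3 * (1 + ∑' n : ℕ, ((n : ℝ) ^ (1 + η / 2))⁻¹)

theorem CC_nonneg {η : ℝ} (hη : 0 < η) : 0 ≤ CC η := by
  unfold CC
  have : 0 ≤ ∑' n : ℕ, ((n : ℝ) ^ (1 + η / 2))⁻¹ := tsum_nonneg fun n => by positivity
  positivity

theorem log_pow_le {η : ℝ} (hη : 0 < η) {x : ℝ} (hx : 1 ≤ x) : (1 + Real.log x) ^ 3 ≤ (1 + 6 / η) ^ 3 * x ^ (η / 2) := by
  have h1 : Real.log x ≤ x ^ (η / 6) / (η / 6) := Real.log_le_rpow_div (by linarith) (by positivity)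
  have h2 : (1 : ℝ) ≤ x ^ (η / 6) := Real.one_le_rpow hx (by positivity)
  have h3 : 0 ≤ Real.log x := Real.log_nonneg hx
  have h4 : 1 + Real.log x ≤ (1 + 6 / η) * x ^ (η / 6) := by
    have : x ^ (η / 6) / (η / 6) = 6 / η * x ^ (η / 6) := by field_simp
    rw [this] at h1
    nlinarith
  calc (1 + Real.log x) ^ 3 ≤ ((1 + 6 / η) * x ^ (η / 6)) ^ 3 := by gcongr
    _ = (1 + 6 / η) ^ 3 * (x ^ (η / 6)) ^ 3 := by ring
    _ = _ := by
        rw [← Real.rpow_natCast (x ^ (η / 6)) 3, ← Real.rpow_mul (by linarith)]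
        congr 2
        push_cast
        ring

/-- The Dirichlet polynomial in the strip, from the partial sums. -/
theorem strip (a : ℕ → ℂ) (y : ℕ) {A η : ℝ} (hA : 0 ≤ A) (hη : 0 < η)
    (h : ∀ x : ℕ, 1 ≤ x → x ≤ y → ‖∑ p ∈ PR x, a p‖ ≤ A * (Real.sqrt x * (1 + Real.log x) ^ 3)) (s : ℂ)
    (hs : 1 / 2 + η ≤ s.re) : ‖∑ p ∈ PR y, a p * (p : ℂ) ^ (-s)‖ ≤ A * CC η * (1 + ‖s‖) := by
  classical
  have hCC := CC_nonneg hη
  rcases Nat.eq_zero_or_pos y with h0 | hy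
  · subst h0
    have : PR 0 = ∅ := by
      ext p
      rw [mem_PR]
      simp only [Finset.notMem_empty, iff_false]
      intro h
      have := h.2.pos
      omega
    rw [this]
    simp only [Finset.sum_empty, norm_zero]
    positivity
  set a' : ℕ → ℂ := fun n => if n.Prime then a n else 0 with ha'
  have e1 : ∀ (x : ℕ) (f : ℕ → ℂ), ∑ p ∈ PR x, a p * f p = ∑ n ∈ Finset.range (x + 1), a' n * f n := by
    intro x f
    have h1 : PR x = (Finset.range (x + 1)).filter Nat.Prime := by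
      ext p
      rw [mem_PR, Finset.mem_filter, Finset.mem_range]
      constructor
      · rintro ⟨h1, h2⟩
        exact ⟨by omega, h2⟩
      · rintro ⟨h1, h2⟩
        exact ⟨by omega, h2⟩
    rw [h1, Finset.sum_filter]
    refine Finset.sum_congr rfl fun n _ => ?_
    rw [ha']
    simp only
    split_ifs <;> simp
  have e2 : ∀ x : ℕ, ∑ p ∈ PR x, a p = ∑ n ∈ Finset.range (x + 1), a' n := by
    intro x
    have := e1 x (fun _ => 1)
    simpa using this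
  have h0' : a' 0 = 0 := by
    rw [ha']
    simp [Nat.not_prime_zero]
  have hs0 : 0 ≤ s.re := by linarith
  set B : ℕ → ℝ := fun x => A * (Real.sqrt x * (1 + Real.log x) ^ 3) with hB
  have hBB : ∀ x : ℕ, x ≤ y → ‖∑ n ∈ Finset.range (x + 1), a' n‖ ≤ B x := by
    intro x hx
    rcases Nat.eq_zero_or_pos x with h0 | hx0
    · subst h0
      simp [h0', hB]
    · rw [← e2]
      exact h x hx0 hx
  rw [e1]
  refine (abel a' y B hBB h0' s hs0 hy).trans ?_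
  have key : ∀ n : ℕ, 1 ≤ n → ∀ t : ℝ, 0 ≤ t → B n * (n : ℝ) ^ (-s.re - t) ≤
      A * (1 + 6 / η) ^ 3 * (n : ℝ) ^ (-(η / 2) - t) := by
    intro n hn t ht
    have hn1 : (1 : ℝ) ≤ n := by exact_mod_cast hn
    have hn0 : (0 : ℝ) < n := by linarith
    have h1 := log_pow_le hη hn1
    have h2 : Real.sqrt n * (n : ℝ) ^ (-s.re - t) ≤ (n : ℝ) ^ (-η - t) := by
      rw [Real.sqrt_eq_rpow, ← Real.rpow_add hn0]
      apply Real.rpow_le_rpow_of_exponent_le hn1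
      linarith
    have h3 : (n : ℝ) ^ (η / 2) * (n : ℝ) ^ (-η - t) = (n : ℝ) ^ (-(η / 2) - t) := by
      rw [← Real.rpow_add hn0]
      congr 1
      ring
    have hlog : 0 ≤ Real.log n := Real.log_nonneg hn1
    calc B n * (n : ℝ) ^ (-s.re - t) = A * ((Real.sqrt n * (n : ℝ) ^ (-s.re - t)) * (1 + Real.log n) ^ 3) := by
          rw [hB]
          ring
      _ ≤ A * ((n : ℝ) ^ (-η - t) * ((1 + 6 / η) ^ 3 * (n : ℝ) ^ (η / 2))) := by gcongr
      _ = A * (1 + 6 / η) ^ 3 * ((n : ℝ) ^ (η / 2) * (n : ℝ) ^ (-η - t)) := by ring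
      _ = _ := by rw [h3]
  have hsum : Summable fun n : ℕ => ((n : ℝ) ^ (1 + η / 2))⁻¹ :=
    Real.summable_nat_rpow_inv.mpr (by linarith)
  set Sg := ∑' n : ℕ, ((n : ℝ) ^ (1 + η / 2))⁻¹ with hSg
  have hSg0 : 0 ≤ Sg := tsum_nonneg fun n => by positivity
  have k1 : B y * (y : ℝ) ^ (-s.re) ≤ A * (1 + 6 / η) ^ 3 := by
    have h1 := key y hy 0 le_rfl
    rw [sub_zero, sub_zero] at h1
    refine h1.trans ?_
    apply mul_le_of_le_one_right (by positivity)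
    exact Real.rpow_le_one_of_one_le_of_nonpos (by exact_mod_cast hy) (by linarith)
  have k2 : ∑ n ∈ Finset.Ico 1 y, B n * (n : ℝ) ^ (-s.re - 1) ≤ A * (1 + 6 / η) ^ 3 * Sg := by
    have h1 : ∀ n ∈ Finset.Ico 1 y, B n * (n : ℝ) ^ (-s.re - 1) ≤
        A * (1 + 6 / η) ^ 3 * ((n : ℝ) ^ (1 + η / 2))⁻¹ := by
      intro n hn
      rw [Finset.mem_Ico] at hn
      have h2 := key n hn.1 1 zero_le_one
      have h3 : (n : ℝ) ^ (-(η / 2) - 1) = ((n : ℝ) ^ (1 + η / 2))⁻¹ := by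
        rw [← Real.rpow_neg (by positivity)]
        congr 1
        ring
      rwa [h3] at h2
    refine (Finset.sum_le_sum h1).trans ?_
    rw [← Finset.mul_sum]
    gcongr
    exact hsum.sum_le_tsum _ fun _ _ => by positivity
  have hs1 : 0 ≤ ‖s‖ := norm_nonneg s
  calc _ ≤ A * (1 + 6 / η) ^ 3 + ‖s‖ * (A * (1 + 6 / η) ^ 3 * Sg) := by gcongr
    _ ≤ A * ((1 + 6 / η) ^ 3 * (1 + Sg)) * (1 + ‖s‖) := by
        have h1 : 0 ≤ A * (1 + 6 / η) ^ 3 * (Sg + ‖s‖) := by positivity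
        nlinarith
    _ = _ := by rw [CC]

section
variable {ι : Type} [Fintype ι] [DecidableEq ι] {t : ∀ p : ℕ, (ι → ZMod p) → ℂ} {P : MvPolynomial ι ℤ}
  {p₀ : ℕ} {b : ℝ}

theorem norm_gt0 (h : Bd 0 p₀ t P b) (p : ℕ) (hp : p.Prime) (y : ι → ZMod p) : ‖gt p₀ t P p y‖ ≤ b := by
  have := norm_gt h p hp y
  simpa using this

theorem norm_mn0 (h : Bd 0 p₀ t P b) (p : ℕ) (hp : p.Prime) : ‖mn p₀ t P p‖ ≤ b := by
  have := norm_mn h p hp
  simpa using this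

theorem sum_sqrt_log (x : ℕ) (hx : 1 ≤ x) : ∑ p ∈ PR x, (p : ℝ) ^ (-(1 / 2) : ℝ) * Real.log p ≤
    2 * (Real.sqrt x * (1 + Real.log x) ^ 3) := by
  have hx1 : (1 : ℝ) ≤ x := by exact_mod_cast hx
  have hlog : 0 ≤ Real.log x := Real.log_nonneg hx1
  have h1 : ∀ p ∈ PR x, (p : ℝ) ^ (-(1 / 2) : ℝ) * Real.log p ≤ (p : ℝ) ^ (-(1 / 2) : ℝ) * Real.log x := by
    intro p hp
    have hp0 : (0 : ℝ) < p := by exact_mod_cast (mem_PR.mp hp).2.pos
    gcongr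
    exact_mod_cast (mem_PR.mp hp).1
  refine (Finset.sum_le_sum h1).trans ?_
  rw [← Finset.sum_mul]
  have h2 : ∀ m : ℕ, ∑ n ∈ Finset.Icc 1 m, (n : ℝ) ^ (-(1 / 2) : ℝ) ≤ 2 * Real.sqrt m := by
    intro m
    induction m with
    | zero => simp
    | succ m ih =>
      rw [Finset.sum_Icc_succ_top (by omega)]
      have h3 : ((m + 1 : ℕ) : ℝ) ^ (-(1 / 2) : ℝ) ≤ 2 * (Real.sqrt ((m + 1 : ℕ) : ℝ) - Real.sqrt m) := by
        have hm : (0 : ℝ) < ((m + 1 : ℕ) : ℝ) := by positivity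
        rw [Real.rpow_neg hm.le, ← Real.sqrt_eq_rpow]
        have a1 : 0 < Real.sqrt ((m + 1 : ℕ) : ℝ) := Real.sqrt_pos.mpr hm
        have a2 : 0 ≤ Real.sqrt m := Real.sqrt_nonneg _
        have a3 : Real.sqrt m ≤ Real.sqrt ((m + 1 : ℕ) : ℝ) := Real.sqrt_le_sqrt (by push_cast; linarith)
        have a4 : Real.sqrt ((m + 1 : ℕ) : ℝ) ^ 2 = m + 1 := by
          rw [Real.sq_sqrt hm.le]
          push_cast
          ring
        have a5 : Real.sqrt m ^ 2 = m := Real.sq_sqrt (by positivity)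
        rw [inv_eq_one_div, div_le_iff₀ a1]
        nlinarith
      linarith
  have h3 : ∑ p ∈ PR x, (p : ℝ) ^ (-(1 / 2) : ℝ) ≤ 2 * Real.sqrt x := by
    refine le_trans ?_ (h2 x)
    apply Finset.sum_le_sum_of_subset_of_nonneg
    · intro p hp
      rw [Finset.mem_Icc]
      exact ⟨(mem_PR.mp hp).2.one_lt.le, (mem_PR.mp hp).1⟩
    · intro n _ _
      positivity
  have h4 : Real.log x ≤ (1 + Real.log x) ^ 3 := by nlinarith [sq_nonneg (Real.log x), pow_nonneg hlog 3]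
  calc _ ≤ (2 * Real.sqrt x) * (1 + Real.log x) ^ 3 := by gcongr
    _ = _ := by ring

/-- **The partial sums for most members.** -/
theorem core (h : Bd 0 p₀ t P b) (u : ℕ → ℂ) (b₂ : ℝ) (hb₂ : 0 ≤ b₂)
    (hu : ∀ p : ℕ, p.Prime → ‖mn p₀ t P p - u p‖ ≤ b₂ * (p : ℝ) ^ (-(1 / 2) : ℝ)) (ρ : ℕ) :
    ∃ C : ℝ, 0 < C ∧ ∀ (θ : ℕ → Fin ρ → ℂ), (∀ p i, ‖θ p i‖ ≤ 1) → ∀ (H : ℕ) (δ : ℝ), 0 < δ →
      ∃ X ⊆ box ι H, (X.card : ℝ) ≤ δ * (box ι H).card ∧ ∀ c ∈ box ι H \ X, ∀ x : ℕ, 1 ≤ x → 8 * x ^ 3 ≤ H →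
        ‖∑ p ∈ PR x, (gt p₀ t P p (red p c) - u p) * (∑ i, θ p i) * (Real.log p : ℂ)‖ ≤
          Real.sqrt (C / δ) * (Real.sqrt x * (1 + Real.log x) ^ 3) := by
  classical
  have hb0 : 0 ≤ b := h.1
  set C : ℝ := 2 * (4096 * 2 ^ Fintype.card ι * (2 * b) ^ 2 * (ρ : ℝ) ^ 2) + 2 * (2 * b₂ * ρ) ^ 2 + 1 with hC
  have hC0 : 0 < C := by positivity
  refine ⟨C, hC0, fun θ hθ H δ hδ => ?_⟩
  set w : ℕ → ℂ := fun p => (∑ i, θ p i) * (Real.log p : ℂ) with hw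
  set f : ∀ p : ℕ, (ι → ZMod p) → ℂ := fun p y => gt p₀ t P p y - mn p₀ t P p with hf
  have hθn : ∀ p, ‖∑ i, θ p i‖ ≤ ρ := fun p => norm_theta hθ p
  have hwn : ∀ p : ℕ, p.Prime → ‖w p‖ ≤ (ρ : ℝ) * Real.log p := by
    intro p hp
    have hp1 : (1 : ℝ) ≤ p := by exact_mod_cast hp.one_lt.le
    rw [hw, norm_mul, Complex.norm_real, Real.norm_of_nonneg (Real.log_nonneg hp1)]
    gcongr
    exact hθn p
  have hfn : ∀ p : ℕ, p.Prime → ∀ y, ‖f p y‖ ≤ 2 * b := by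
    intro p hp y
    refine (norm_sub_le _ _).trans ?_
    have h1 := norm_gt0 h p hp y
    have h2 := norm_mn0 h p hp
    linarith
  have hf0 : ∀ (p : ℕ) [Fact p.Prime], ∑ y, f p y = 0 := fun p _ => sum_dev0 p
  have hEM := EB_MM (by positivity) (by positivity) f hfn hf0 w hwn H
  set M : (ι → ℤ) → ℝ := fun c => 2 * MM f w H c + (2 * (2 * b₂ * ρ) ^ 2 + 1) with hM
  have hM0 : ∀ c, 0 ≤ M c := fun c => by
    have := MM_nonneg f w H c
    rw [hM]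
    positivity
  have hMC : EB H M ≤ C := by
    rw [hM, EB_add, Pool.Agent.Y722.HS.EB_mul, EB_const]
    linarith
  have hsum : ∑ c ∈ box ι H, M c ≤ C * (box ι H).card := by
    calc _ = EB H M * (box ι H).card := by
          rw [EB, card_box]
          field_simp
      _ ≤ _ := by gcongr
  refine ⟨(box ι H).filter (fun c => C / δ < M c), Finset.filter_subset _ _, ?_, ?_⟩
  · have h1 : (((box ι H).filter (fun c => C / δ < M c)).card : ℝ) *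
        (C / δ) ≤ ∑ c ∈ (box ι H).filter (fun c => C / δ < M c), M c := by
      rw [← nsmul_eq_mul]
      exact Finset.card_nsmul_le_sum _ _ _ fun c hc => (Finset.mem_filter.mp hc).2.le
    have h2 : ∑ c ∈ (box ι H).filter (fun c => C / δ < M c), M c ≤
        ∑ c ∈ box ι H, M c :=
      Finset.sum_le_sum_of_subset_of_nonneg (Finset.filter_subset _ _) fun c _ _ => hM0 c
    have h3 := (h1.trans h2).trans hsum
    rw [mul_div_assoc', div_le_iff₀ hδ] at h3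
    have h4 : C * (((box ι H).filter (fun c => C / δ < M c)).card : ℝ) ≤
        C * (δ * (box ι H).card) := by linarith
    exact le_of_mul_le_mul_left h4 hC0
  · intro c hc x hx hxH
    rw [Finset.mem_sdiff, Finset.mem_filter, not_and, not_lt] at hc
    have hMc := hc.2 hc.1
    have h1 := FF_le f w H c x hx hxH
    have hx1 : (1 : ℝ) ≤ x := by exact_mod_cast hx
    have hlog : 0 ≤ Real.log x := Real.log_nonneg hx1
    set L : ℝ := Real.sqrt x * (1 + Real.log x) ^ 3 with hL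
    have hL0 : 0 ≤ L := by positivity
    have hL2 : L ^ 2 = x * (1 + Real.log x) ^ 6 := by
      rw [hL, mul_pow, Real.sq_sqrt (by positivity)]
      ring
    have h2 : ‖FF f w c x‖ ^ 2 ≤ MM f w H c * L ^ 2 := by
      rw [hL2, ← mul_assoc]
      exact h1
    have h3 : ‖∑ p ∈ PR x, (mn p₀ t P p - u p) * w p‖ ≤ (2 * b₂ * ρ) * L := by
      have h4 : ∀ p ∈ PR x, ‖(mn p₀ t P p - u p) * w p‖ ≤
          (b₂ * ρ) * ((p : ℝ) ^ (-(1 / 2) : ℝ) * Real.log p) := by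
        intro p hp
        have hpp := (mem_PR.mp hp).2
        have hp1 : (1 : ℝ) ≤ p := by exact_mod_cast hpp.one_lt.le
        have hlp : 0 ≤ Real.log p := Real.log_nonneg hp1
        rw [norm_mul]
        calc _ ≤ (b₂ * (p : ℝ) ^ (-(1 / 2) : ℝ)) * (ρ * Real.log p) := by
              gcongr
              · exact hu p hpp
              · exact hwn p hpp
          _ = _ := by ring
      refine (norm_sum_le _ _).trans ((Finset.sum_le_sum h4).trans ?_)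
      rw [← Finset.mul_sum]
      calc _ ≤ (b₂ * ρ) * (2 * L) := by
            gcongr
            exact sum_sqrt_log x hx
        _ = _ := by ring
    have h5 : ∑ p ∈ PR x, (gt p₀ t P p (red p c) - u p) * (∑ i, θ p i) * (Real.log p : ℂ) =
        FF f w c x + ∑ p ∈ PR x, (mn p₀ t P p - u p) * w p := by
      unfold FF
      rw [← Finset.sum_add_distrib]
      refine Finset.sum_congr rfl fun p _ => ?_
      rw [hw, hf]
      simp only
      ring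
    rw [h5]
    have h6 := norm_add_le (FF f w c x) (∑ p ∈ PR x, (mn p₀ t P p - u p) * w p)
    have hMM := MM_nonneg f w H c
    have h7 : (‖FF f w c x‖ + (2 * b₂ * ρ) * L) ^ 2 ≤ C / δ * L ^ 2 := by
      have e1 : (‖FF f w c x‖ + (2 * b₂ * ρ) * L) ^ 2 ≤ 2 * ‖FF f w c x‖ ^ 2 + 2 * ((2 * b₂ * ρ) * L) ^ 2 := by
        nlinarith [sq_nonneg (‖FF f w c x‖ - (2 * b₂ * ρ) * L)]
      have e2 : 2 * MM f w H c + (2 * (2 * b₂ * ρ) ^ 2 + 1) ≤ C / δ := hMc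
      calc _ ≤ 2 * (MM f w H c * L ^ 2) + 2 * ((2 * b₂ * ρ) * L) ^ 2 := by linarith
        _ = (2 * MM f w H c + 2 * (2 * b₂ * ρ) ^ 2) * L ^ 2 := by ring
        _ ≤ C / δ * L ^ 2 := by
            gcongr
            linarith
    have h8 : ‖FF f w c x‖ + (2 * b₂ * ρ) * L ≤ Real.sqrt (C / δ) * L := by
      apply le_of_sq_le_sq _ (by positivity)
      rw [mul_pow, Real.sq_sqrt (by positivity)]
      exact h7
    linarith

end

/-- The complete series, from the partial sums. -/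
theorem complete {ρ : ℕ} {θ : ℕ → Fin ρ → ℂ} (hθ : ∀ p i, ‖θ p i‖ ≤ 1) (g u : ℕ → ℂ) {b A : ℝ} (hb : 0 ≤ b)
    (hA : 0 ≤ A) (hg : ∀ p : ℕ, p.Prime → ‖g p‖ ≤ b) (hu : ∀ p : ℕ, p.Prime → ‖u p‖ ≤ b) (H : ℕ) (hH : 1 ≤ H)
    (h : ∀ x : ℕ, 1 ≤ x → 8 * x ^ 3 ≤ H → ‖∑ p ∈ PR x, (g p - u p) * (∑ i, θ p i) * (Real.log p : ℂ)‖ ≤
      A * (Real.sqrt x * (1 + Real.log x) ^ 3)) (s : ℂ) (hs1 : 1 < s.re) (hs2 : s.re ≤ 2) :
    ‖∑' p : Nat.Primes, g p * (∑ i, θ p i) * (Real.log p : ℂ) * ((p : ℕ) : ℂ) ^ (-s) -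
      ∑' p : Nat.Primes, u p * (∑ i, θ p i) * (Real.log p : ℂ) * ((p : ℕ) : ℂ) ^ (-s)‖ ≤
      A * CC (1 / 2) * (1 + ‖s‖) + 48 * b * ρ * ((H : ℝ) ^ (-((s.re - 1) / 3)) / (s.re - 1)) := by
  set ε : ℝ := s.re - 1 with hε
  have hε0 : 0 < ε := by linarith
  have hε1 : ε ≤ 1 := by linarith
  set y : ℕ := Nat.findGreatest (fun x => 8 * x ^ 3 ≤ H) H with hy
  have hy1 : 8 * y ^ 3 ≤ H := Nat.findGreatest_spec (P := fun x => 8 * x ^ 3 ≤ H) (Nat.zero_le H) (by simp)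
  have hy2 : H < 8 * (y + 1) ^ 3 := by
    by_contra hcon
    push Not at hcon
    have h1 : y + 1 ≤ H := by
      have : y + 1 ≤ (y + 1) ^ 3 := Nat.le_self_pow (by norm_num) _
      omega
    have h2 := Nat.le_findGreatest (P := fun x => 8 * x ^ 3 ≤ H) h1 hcon
    omega
  have hθn : ∀ p, ‖∑ i, θ p i‖ ≤ ρ := fun p => norm_theta hθ p
  have hterm : ∀ (a : ℕ → ℂ), (∀ p : ℕ, p.Prime → ‖a p‖ ≤ b) → ∀ p : ℕ, p.Prime →
      ‖a p * (∑ i, θ p i) * (Real.log p : ℂ) * (p : ℂ) ^ (-s)‖ ≤ (b * ρ) * (Real.log p * (p : ℝ) ^ (-1 - ε)) := by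
    intro a ha p hp
    have hp1 : (1 : ℝ) ≤ p := by exact_mod_cast hp.one_lt.le
    have hp0 : (0 : ℝ) < p := by linarith
    have e1 : ‖(p : ℂ) ^ (-s)‖ = (p : ℝ) ^ (-1 - ε) := by
      rw [← Complex.ofReal_natCast, Complex.norm_cpow_eq_rpow_re_of_pos hp0, Complex.neg_re]
      congr 1
      rw [hε]
      ring
    rw [norm_mul, norm_mul, norm_mul, e1, Complex.norm_real, Real.norm_of_nonneg (Real.log_nonneg hp1)]
    have hlog := Real.log_nonneg hp1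
    calc _ ≤ b * ρ * Real.log p * (p : ℝ) ^ (-1 - ε) := by
          gcongr
          · exact ha p hp
          · exact hθn p
      _ = _ := by ring
  have t1 := (tail_gen_log _ (b * ρ) (by positivity) ε hε0 hε1 (hterm g hg) y).2
  have t2 := (tail_gen_log _ (b * ρ) (by positivity) ε hε0 hε1 (hterm u hu) y).2
  have t3 := strip (fun p => (g p - u p) * (∑ i, θ p i) * (Real.log p : ℂ)) y hA (η := 1 / 2) (by norm_num)
    (fun x hx hxy => h x hx (by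
      have : x ^ 3 ≤ y ^ 3 := Nat.pow_le_pow_left hxy 3
      omega)) s (by linarith)
  have hN : (((y + 1 : ℕ) : ℝ)) ^ (-ε) ≤ 2 * (H : ℝ) ^ (-(ε / 3)) := by
    have hH0 : (0 : ℝ) < H := by exact_mod_cast hH
    have h1 : (H : ℝ) ≤ (2 * ((y + 1 : ℕ) : ℝ)) ^ (3 : ℝ) := by
      have : (H : ℝ) ≤ 8 * ((y + 1 : ℕ) : ℝ) ^ 3 := by exact_mod_cast hy2.le
      rw [show (3 : ℝ) = ((3 : ℕ) : ℝ) by norm_num, Real.rpow_natCast]
      linarith
    have h2 : ((2 * ((y + 1 : ℕ) : ℝ)) ^ (3 : ℝ)) ^ (-(ε / 3)) ≤ (H : ℝ) ^ (-(ε / 3)) :=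
      Real.rpow_le_rpow_of_nonpos hH0 h1 (by linarith)
    have h3 : ((2 * ((y + 1 : ℕ) : ℝ)) ^ (3 : ℝ)) ^ (-(ε / 3)) = (2 : ℝ) ^ (-ε) * (((y + 1 : ℕ) : ℝ)) ^ (-ε) := by
      rw [← Real.rpow_mul (by positivity), Real.mul_rpow (by norm_num) (by positivity)]
      congr 2 <;> ring
    have h4 : (1 : ℝ) / 2 ≤ (2 : ℝ) ^ (-ε) := by
      rw [Real.rpow_neg (by norm_num), one_div]
      apply inv_anti₀ (by positivity)
      calc (2 : ℝ) ^ ε ≤ (2 : ℝ) ^ (1 : ℝ) := Real.rpow_le_rpow_of_exponent_le (by norm_num) hε1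
        _ = 2 := Real.rpow_one _
    rw [h3] at h2
    have h5 : (1 : ℝ) / 2 * (((y + 1 : ℕ) : ℝ)) ^ (-ε) ≤ (2 : ℝ) ^ (-ε) * (((y + 1 : ℕ) : ℝ)) ^ (-ε) := by gcongr
    linarith
  have hN2 : (((y + 1 : ℕ) : ℝ)) ^ (-ε) / ε ≤ 2 * ((H : ℝ) ^ (-(ε / 3)) / ε) := by
    rw [mul_div_assoc']
    gcongr
  have hN3 : (b * ρ) * (12 * ((((y + 1 : ℕ) : ℝ)) ^ (-ε) / ε)) ≤ 24 * b * ρ * ((H : ℝ) ^ (-(ε / 3)) / ε) := by
    calc _ ≤ (b * ρ) * (12 * (2 * ((H : ℝ) ^ (-(ε / 3)) / ε))) := by gcongr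
      _ = _ := by ring
  set S1 := ∑' p : Nat.Primes, g p * (∑ i, θ p i) * (Real.log p : ℂ) * ((p : ℕ) : ℂ) ^ (-s)
  set S2 := ∑' p : Nat.Primes, u p * (∑ i, θ p i) * (Real.log p : ℂ) * ((p : ℕ) : ℂ) ^ (-s)
  set F1 := ∑ p ∈ PR y, g p * (∑ i, θ p i) * (Real.log p : ℂ) * (p : ℂ) ^ (-s)
  set F2 := ∑ p ∈ PR y, u p * (∑ i, θ p i) * (Real.log p : ℂ) * (p : ℂ) ^ (-s) with hF2
  have e : ∑ p ∈ PR y, (g p - u p) * (∑ i, θ p i) * (Real.log p : ℂ) * (p : ℂ) ^ (-s) = F1 - F2 := by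
    rw [hF2, ← Finset.sum_sub_distrib]
    exact Finset.sum_congr rfl fun p _ => by ring
  rw [e] at t3
  have e2 : S1 - S2 = (S1 - F1) + (F1 - F2) - (S2 - F2) := by ring
  rw [e2]
  refine (norm_sub_le _ _).trans ?_
  have := norm_add_le (S1 - F1) (F1 - F2)
  linarith

end Pool.Agent.L0h50.NA
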