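import Mathlib
import Pool.Agent.L0h50.FI.Defs

/-!
# The restrictions of a fibration to random sections of the base: definitions

`𝒳 → U` is a smooth projective family of varieties over the open part `U : P ≠ 0` of `𝔸^n × 𝔸^k`, with a model over the
integers. `φ_c : 𝔸^k → 𝔸^n` is the polynomial map with the components `f_j(s) + ∑_m c_{j,m} s^m`, `m ∈ M_j`, where the `f_j`
and the sets `M_j` of exponents are fixed, and the coefficients `c_{j,m}` vary. `𝒳_c` is the restriction of `𝒳` to the graph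
of `φ_c`; it is a family over the part of `𝔸^k` which the map `s ↦ (φ_c(s), s)` sends to `U`.
-/

set_option autoImplicit false

namespace Pool.Agent.L0h50.NA

open Pool.Agent.Y722.HS (red)
open Pool.Agent.L0h50.FI (at' fibreMean)

section
variable {n k : ℕ}

/-- The coordinates of `𝔸^n × 𝔸^k`. -/
abbrev Base (n k : ℕ) : Type := Fin n ⊕ Fin k

/-- The coefficients `c_{j,m}`, `m ∈ M_j`. -/
abbrev Coef (M : Fin n → Finset (Fin k → ℕ)) : Type := (j : Fin n) × {m : Fin k → ℕ // m ∈ M j}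

/-- The point `(φ_c(s), s)` over `ℤ/p`. -/
noncomputable def point (f : Fin n → MvPolynomial (Fin k) ℤ) (M : Fin n → Finset (Fin k → ℕ)) (p : ℕ)
    (c : Coef M → ZMod p) (s : Fin k → ZMod p) : Base n k → ZMod p :=
  Sum.elim (fun j => MvPolynomial.eval₂ (Int.castRingHom (ZMod p)) s (f j) +
    ∑ m : {m : Fin k → ℕ // m ∈ M j}, c ⟨j, m⟩ * ∏ i, s i ^ m.1 i) s

variable {b : ℕ → ℕ}

/-- The average `𝔄_p(𝒳_c) = p^{-k} ∑ a_p(X_{(φ_c(s), s)})` of the traces of the Frobenius on the first cohomology group of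
the fibres over the points `s` over `ℤ/p` with `(φ_c(s), s)` in `U`. -/
noncomputable def sectionMean (β : ∀ p : ℕ, (Base n k → ZMod p) → ∀ i : ℕ, Fin (b i) → ℂ)
    (P : MvPolynomial (Base n k) ℤ) (f : Fin n → MvPolynomial (Fin k) ℤ) (M : Fin n → Finset (Fin k → ℕ)) (p : ℕ)
    (c : Coef M → ZMod p) : ℂ :=
  (∑ᶠ s : {s : Fin k → ZMod p // at' P p (point f M p c s) ≠ 0}, ∑ j, β p (point f M p c s.1) 1 j) / (p : ℂ) ^ k

/-- `tr p c` is the trace of the Frobenius on the first cohomology group of the trace `B_c` of the Picard variety of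
the generic fibre of `𝒳_c`, for the primes `p ≥ p₀` and all `c` modulo `p` with `P₀(c) ≠ 0`. By Deligne's theorem (the
weights of the cohomology with compact support of the sheaf `R¹ f_* ℚ_ℓ` on the base) `𝔄_p(𝒳_c) - tr p c` is bounded at these
points. The polynomial `P₀ ≠ 0` is zero at the `c` where the restriction is not generic. -/
structure IsGeneric (β : ∀ p : ℕ, (Base n k → ZMod p) → ∀ i : ℕ, Fin (b i) → ℂ)
    (P : MvPolynomial (Base n k) ℤ) (f : Fin n → MvPolynomial (Fin k) ℤ) (M : Fin n → Finset (Fin k → ℕ)) (p₀ : ℕ)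
    (P₀ : MvPolynomial (Coef M) ℤ) (tr : ∀ p : ℕ, (Coef M → ZMod p) → ℂ) (K : ℝ) : Prop where
  weight : ∀ p : ℕ, p.Prime → p₀ ≤ p → ∀ c, ‖tr p c‖ ≤ K * (p : ℝ) ^ ((1 : ℝ) / 2)
  bound : ∀ p : ℕ, p.Prime → p₀ ≤ p → ∀ c, at' P₀ p c ≠ 0 → ‖sectionMean β P f M p c - tr p c‖ ≤ K

open Classical in
/-- `𝔄*_p(𝒳_c)`, for `c` with integer coordinates and the primes `p ≥ p₀` which do not divide `P₀(c)`. -/
noncomputable def sectionStar (β : ∀ p : ℕ, (Base n k → ZMod p) → ∀ i : ℕ, Fin (b i) → ℂ)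
    (P : MvPolynomial (Base n k) ℤ) (f : Fin n → MvPolynomial (Fin k) ℤ) (M : Fin n → Finset (Fin k → ℕ)) (p₀ : ℕ)
    (P₀ : MvPolynomial (Coef M) ℤ) (tr : ∀ p : ℕ, (Coef M → ZMod p) → ℂ) (c : Coef M → ℤ) (p : ℕ) : ℂ :=
  if p.Prime ∧ p₀ ≤ p ∧ ¬ (p : ℤ) ∣ MvPolynomial.eval c P₀ then
    sectionMean β P f M p (red p c) - tr p (red p c) else 0

open Classical in
/-- `𝔄_p(𝒳)` minus the average of the traces of the Frobenius on the first cohomology groups of the `B_c`, for the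
primes `p ≥ p₀`. If all the `B_c` are the trace `B` of `𝒳`, this is `𝔄*_p(𝒳)`. -/
noncomputable def totalStar (β : ∀ p : ℕ, (Base n k → ZMod p) → ∀ i : ℕ, Fin (b i) → ℂ)
    (P : MvPolynomial (Base n k) ℤ) (M : Fin n → Finset (Fin k → ℕ)) (p₀ : ℕ)
    (tr : ∀ p : ℕ, (Coef M → ZMod p) → ℂ) (p : ℕ) : ℂ :=
  if p.Prime ∧ p₀ ≤ p then
    fibreMean 1 p₀ β P p - (∑ᶠ c : Coef M → ZMod p, tr p c) / (p : ℂ) ^ Fintype.card (Coef M) else 0

end

/-- The series `∑_p a_p tr(Θ)(p) log(p) p^{-s}`, where `Θ` has the eigenvalues `θ p i` at `p`. -/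
noncomputable def series {ρ : ℕ} (θ : ℕ → Fin ρ → ℂ) (a : ℕ → ℂ) (s : ℂ) : ℂ :=
  ∑' p : Nat.Primes, a p * (∑ i, θ p i) * (Real.log p : ℂ) * ((p : ℕ) : ℂ) ^ (-s)

/-- The sum `∑_{p ≤ x} a_p tr(Θ)(p) log(p) p^{-s}`. -/
noncomputable def partialSeries {ρ : ℕ} (θ : ℕ → Fin ρ → ℂ) (a : ℕ → ℂ) (x : ℕ) (s : ℂ) : ℂ :=
  ∑ p ∈ (Finset.range (x + 1)).filter Nat.Prime, a p * (∑ i, θ p i) * (Real.log p : ℂ) * (p : ℂ) ^ (-s)

/-- Nagao's average `x^{-1} ∑_{p ≤ x} a_p tr(Θ)(p) log(p)`. -/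
noncomputable def nagaoMean {ρ : ℕ} (θ : ℕ → Fin ρ → ℂ) (a : ℕ → ℂ) (x : ℕ) : ℂ :=
  (∑ p ∈ (Finset.range (x + 1)).filter Nat.Prime, a p * (∑ i, θ p i) * (Real.log p : ℂ)) / x

end Pool.Agent.L0h50.NA
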