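import Mathlib
import Pool.Agent.L0h50.NA.Core
import Pool.Agent.L0h50.NA.Defs
import Pool.Agent.L0h50.FI.Core

/-!
# The average over the sections
-/

set_option autoImplicit false

namespace Pool.Agent.L0h50.NA

open Finset Pool.Agent.Y722.HS Pool.Agent.Y722.LS Pool.Agent.L0h50.FI

/-- The sum over the values of a surjective homomorphism. -/
theorem sum_hom {A B : Type} [AddCommGroup A] [AddCommGroup B] [Fintype A] [Fintype B] (L : A →+ B)
    (hL : Function.Surjective L) (v : B) (G : B → ℂ) :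
    (∑ a, G (L a + v)) / Fintype.card A = (∑ y, G y) / Fintype.card B := by
  classical
  have hA : (Fintype.card A : ℂ) ≠ 0 := by exact_mod_cast Fintype.card_ne_zero
  have hB : (Fintype.card B : ℂ) ≠ 0 := by exact_mod_cast Fintype.card_ne_zero
  set q := #{a : A | L a = 0} with hq
  have h1 : ∀ y : B, #{a : A | L a = y} = q := by
    intro y
    exact AddMonoidHom.card_fiber_eq_of_mem_range L (by
      obtain ⟨a, ha⟩ := hL y
      exact ⟨a, ha⟩) ⟨0, map_zero L⟩
  have h2 : ∀ F : B → ℂ, ∑ a, F (L a) = q * ∑ y, F y := by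
    intro F
    rw [← Finset.sum_fiberwise (s := (Finset.univ : Finset A)) (g := fun a => L a), Finset.mul_sum]
    refine Finset.sum_congr rfl fun y _ => ?_
    rw [Finset.sum_congr rfl (g := fun _ => F y) (fun a ha => by
      rw [Finset.mem_filter] at ha
      rw [ha.2]), Finset.sum_const, nsmul_eq_mul, h1 y]
  have h3 : (Fintype.card A : ℂ) = q * Fintype.card B := by
    have := h2 (fun _ => 1)
    simpa using this
  have h4 : ∑ a, G (L a + v) = q * ∑ y, G y := by
    rw [h2 (fun y => G (y + v))]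
    congr 1
    exact Fintype.sum_equiv (Equiv.addRight v) _ _ fun _ => rfl
  have hq0 : (q : ℂ) ≠ 0 := by
    intro h
    rw [h, zero_mul] at h3
    exact hA h3
  rw [h4, h3]
  field_simp

section
variable {n k N : ℕ} {b : ℕ → ℕ} {β : ∀ p : ℕ, (Base n k → ZMod p) → ∀ i : ℕ, Fin (b i) → ℂ}
  {P : MvPolynomial (Base n k) ℤ} {f : Fin n → MvPolynomial (Fin k) ℤ} {M : Fin n → Finset (Fin k → ℕ)} {p₀ : ℕ}
  {P₀ : MvPolynomial (Coef M) ℤ} {tr : ∀ p : ℕ, (Coef M → ZMod p) → ℂ} {K : ℝ}

theorem section_eq {p : ℕ} [hF : Fact p.Prime] (hp : p₀ ≤ p) (c : Coef M → ZMod p) :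
    sectionMean β P f M p c = (∑ s : Fin k → ZMod p, gt 1 p₀ β P p (point f M p c s)) / (p : ℂ) ^ k := by
  classical
  unfold sectionMean
  rw [finsum_eq_sum_of_fintype]
  congr 1
  have h1 : ∀ s : Fin k → ZMod p, gt 1 p₀ β P p (point f M p c s) =
      if at' P p (point f M p c s) ≠ 0 then ∑ j, β p (point f M p c s) 1 j else 0 := by
    intro s
    unfold gt
    by_cases h2 : at' P p (point f M p c s) = 0
    · rw [if_pos (Or.inr h2), if_neg (not_not.mpr h2)]
    · rw [if_neg (by push Not; exact ⟨hp, h2⟩), if_pos h2]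
  rw [Finset.sum_congr rfl fun s _ => h1 s, ← Finset.sum_filter]
  exact (Finset.sum_subtype (univ.filter fun s : Fin k → ZMod p => at' P p (point f M p c s) ≠ 0)
    (fun s => by simp) (fun s => ∑ j, β p (point f M p c s) 1 j)).symm

/-- The average over the sections is the average over the base. -/
theorem section_mean (hM : ∀ j, (0 : Fin k → ℕ) ∈ M j) {p : ℕ} [hF : Fact p.Prime] (hp : p₀ ≤ p) :
    (∑ c : Coef M → ZMod p, sectionMean β P f M p c) / (p : ℂ) ^ Fintype.card (Coef M) =
      fibreMean 1 p₀ β P p := by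
  classical
  have hpc : (p : ℂ) ≠ 0 := by exact_mod_cast hF.out.ne_zero
  rw [mean_eq]
  have h1 : ∀ s : Fin k → ZMod p, (∑ c : Coef M → ZMod p, gt 1 p₀ β P p (point f M p c s)) /
      (p : ℂ) ^ Fintype.card (Coef M) =
      (∑ y : Fin n → ZMod p, gt 1 p₀ β P p (Sum.elim y s)) / (p : ℂ) ^ n := by
    intro s
    let L : (Coef M → ZMod p) →+ (Fin n → ZMod p) :=
      { toFun := fun c j => ∑ m : {m : Fin k → ℕ // m ∈ M j}, c ⟨j, m⟩ * ∏ i, s i ^ m.1 i
        map_zero' := by
          ext j
          simp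
        map_add' := fun c d => by
          ext j
          simp only [Pi.add_apply, add_mul, Finset.sum_add_distrib] }
    have hL : Function.Surjective L := by
      intro y
      refine ⟨fun jm => if jm.2.1 = 0 then y jm.1 else 0, ?_⟩
      ext j
      show ∑ m : {m : Fin k → ℕ // m ∈ M j}, (if m.1 = 0 then y j else 0) * ∏ i, s i ^ m.1 i = y j
      rw [Finset.sum_eq_single (⟨0, hM j⟩ : {m : Fin k → ℕ // m ∈ M j})]
      · simp
      · intro m _ hm
        rw [if_neg (fun h => hm (Subtype.ext h)), zero_mul]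
      · intro h
        exact absurd (Finset.mem_univ _) h
    have h2 := sum_hom L hL (fun j => MvPolynomial.eval₂ (Int.castRingHom (ZMod p)) s (f j))
      (fun y => gt 1 p₀ β P p (Sum.elim y s))
    have h3 : (Fintype.card (Coef M → ZMod p) : ℂ) = (p : ℂ) ^ Fintype.card (Coef M) := by
      rw [Fintype.card_fun, ZMod.card]
      push_cast
      rfl
    have h4 : (Fintype.card (Fin n → ZMod p) : ℂ) = (p : ℂ) ^ n := by
      rw [Fintype.card_fun, ZMod.card, Fintype.card_fin]
      push_cast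
      rfl
    rw [h3, h4] at h2
    rw [← h2]
    congr 1
    refine Finset.sum_congr rfl fun c _ => ?_
    congr 1
    unfold point
    congr 1
    ext j
    exact add_comm _ _
  have h2 : ∑ c : Coef M → ZMod p, sectionMean β P f M p c =
      (∑ s : Fin k → ZMod p, ∑ c : Coef M → ZMod p, gt 1 p₀ β P p (point f M p c s)) / (p : ℂ) ^ k := by
    rw [Finset.sum_congr rfl fun c _ => section_eq (p₀ := p₀) hp c, ← Finset.sum_div, Finset.sum_comm]
  rw [h2]
  have h3 : ∑ s : Fin k → ZMod p, ∑ c : Coef M → ZMod p, gt 1 p₀ β P p (point f M p c s) =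
      (∑ s : Fin k → ZMod p, ∑ y : Fin n → ZMod p, gt 1 p₀ β P p (Sum.elim y s)) / (p : ℂ) ^ n *
        (p : ℂ) ^ Fintype.card (Coef M) := by
    rw [Finset.sum_div, Finset.sum_mul]
    refine Finset.sum_congr rfl fun s _ => ?_
    rw [← h1 s]
    field_simp
  have h4 : ∑ z : Base n k → ZMod p, gt 1 p₀ β P p z =
      ∑ s : Fin k → ZMod p, ∑ y : Fin n → ZMod p, gt 1 p₀ β P p (Sum.elim y s) := by
    rw [Finset.sum_comm, ← Finset.sum_product' (f := fun (y : Fin n → ZMod p) (s : Fin k → ZMod p) =>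
      gt 1 p₀ β P p (Sum.elim y s))]
    refine Fintype.sum_equiv (Equiv.sumArrowEquivProdArrow (Fin n) (Fin k) (ZMod p)) _ _ fun z => ?_
    congr 1
    ext i
    rcases i with i | i <;> rfl
  rw [h3, h4]
  have h5 : Fintype.card (Base n k) = n + k := by simp
  rw [h5, pow_add]
  field_simp

end

end Pool.Agent.L0h50.NA
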