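import Mathlib
import Pool.Agent.L0h50.NA.Mean
import Pool.Agent.L0h50.AB.Main

/-!
# The members and the total fibration
-/

set_option autoImplicit false

namespace Pool.Agent.L0h50.NA

open Finset Pool.Agent.Y722.HS Pool.Agent.Y722.LS Pool.Agent.L0h50.FI

section
variable {n k N : ℕ} {b : ℕ → ℕ} {β : ∀ p : ℕ, (Base n k → ZMod p) → ∀ i : ℕ, Fin (b i) → ℂ}
  {P : MvPolynomial (Base n k) ℤ} {f : Fin n → MvPolynomial (Fin k) ℤ} {M : Fin n → Finset (Fin k → ℕ)} {p₀ : ℕ}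
  {P₀ : MvPolynomial (Coef M) ℤ} {tr : ∀ p : ℕ, (Coef M → ZMod p) → ℂ} {K : ℝ}
  {E : Set (MvPolynomial (Fin (N + 1)) (MvPolynomial (Base n k) ℤ))} {D : ℕ}

/-- The function of the machine. -/
noncomputable def td (β : ∀ p : ℕ, (Base n k → ZMod p) → ∀ i : ℕ, Fin (b i) → ℂ)
    (P : MvPolynomial (Base n k) ℤ) (f : Fin n → MvPolynomial (Fin k) ℤ) (M : Fin n → Finset (Fin k → ℕ))
    (tr : ∀ p : ℕ, (Coef M → ZMod p) → ℂ) (p : ℕ) (c : Coef M → ZMod p) : ℂ :=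
  sectionMean β P f M p c - tr p c

theorem K_nonneg (h : IsGeneric β P f M p₀ P₀ tr K) : 0 ≤ K := by
  obtain ⟨p, hp, hpp⟩ := Nat.exists_infinite_primes p₀
  have h1 := h.weight p hpp hp 0
  have h2 : (0 : ℝ) < (p : ℝ) ^ ((1 : ℝ) / 2) := by
    have : (0 : ℝ) < p := by exact_mod_cast hpp.pos
    positivity
  have h3 : 0 ≤ K * (p : ℝ) ^ ((1 : ℝ) / 2) := (norm_nonneg _).trans h1
  exact nonneg_of_mul_nonneg_left h3 h2

theorem bd_td (h : IsGeneric β P f M p₀ P₀ tr K) : Pool.Agent.L0h50.AB.Bd 0 p₀ (td β P f M tr) P₀ K := by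
  refine ⟨K_nonneg h, fun p hp hp₀ c hc => ?_⟩
  have h1 := h.bound p hp hp₀ c hc
  have e : (p : ℝ) ^ (((0 : ℕ) : ℝ) / 2) = 1 := by simp
  rw [e, mul_one]
  exact h1

theorem star_eq (c : Coef M → ℤ) (p : ℕ) (hp : p.Prime) :
    sectionStar β P f M p₀ P₀ tr c p = Pool.Agent.L0h50.AB.gt p₀ (td β P f M tr) P₀ p (red p c) := by
  unfold sectionStar Pool.Agent.L0h50.AB.gt td
  by_cases h : p < p₀ ∨ Pool.Agent.L0h50.AB.at' P₀ p (red p c) = 0
  · rw [if_pos h, if_neg]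
    rintro ⟨-, h1, h2⟩
    rcases h with h | h
    · omega
    · exact h2 ((Pool.Agent.L0h50.AB.at_iff p c).mp h)
  · rw [if_neg h, if_pos]
    push Not at h
    exact ⟨hp, h.1, fun hd => h.2 ((Pool.Agent.L0h50.AB.at_iff p c).mpr hd)⟩

theorem norm_section (h : IsFibration E P D p₀ b β) {p : ℕ} (hp : p.Prime) (hp₀ : p₀ ≤ p) (c : Coef M → ZMod p) :
    ‖sectionMean β P f M p c‖ ≤ b 1 * (p : ℝ) ^ ((1 : ℝ) / 2) := by
  have := Fact.mk hp
  have hp0 : (0 : ℝ) < p := by exact_mod_cast hp.pos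
  rw [section_eq hp₀, norm_div, norm_pow, Complex.norm_natCast, div_le_iff₀ (by positivity)]
  refine (norm_sum_le _ _).trans ((Finset.sum_le_sum fun y _ => norm_gt h p hp _).trans ?_)
  rw [Finset.sum_const, nsmul_eq_mul, Finset.card_univ, Fintype.card_fun, ZMod.card, Fintype.card_fin]
  push_cast
  apply le_of_eq
  ring

/-- The mean of the machine is the total mean, up to `O(p^{-1/2})`. -/
theorem mn_near (h : IsFibration E P D p₀ b β) (hM : ∀ j, (0 : Fin k → ℕ) ∈ M j)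
    (hg : IsGeneric β P f M p₀ P₀ tr K) (hP : P₀ ≠ 0) : ∃ b₂ : ℝ, 0 ≤ b₂ ∧ ∀ p : ℕ, p.Prime →
      ‖Pool.Agent.L0h50.AB.mn p₀ (td β P f M tr) P₀ p - totalStar β P M p₀ tr p‖ ≤
        b₂ * (p : ℝ) ^ (-(1 / 2) : ℝ) := by
  classical
  obtain ⟨c0, hc0⟩ : ∃ c0 : Coef M → ℤ, MvPolynomial.eval c0 P₀ ≠ 0 := by
    by_contra hcon
    push Not at hcon
    exact hP (MvPolynomial.funext fun c => by rw [hcon c, map_zero])
  have hK := K_nonneg hg
  set A : ℝ := 1 + p₀ + P₀.totalDegree + |(MvPolynomial.eval c0 P₀ : ℝ)| with hA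
  have hA0 : 0 ≤ A := by positivity
  refine ⟨((b 1 : ℝ) + K) * A, by positivity, fun p hp => ?_⟩
  have hF := Fact.mk hp
  have hp0 : (0 : ℝ) < p := by exact_mod_cast hp.pos
  have hpc : (p : ℂ) ≠ 0 := by exact_mod_cast hp.ne_zero
  by_cases hp₀ : p₀ ≤ p
  · have e1 : totalStar β P M p₀ tr p = (∑ c : Coef M → ZMod p, td β P f M tr p c) /
        (p : ℂ) ^ Fintype.card (Coef M) := by
      unfold totalStar
      rw [if_pos ⟨hp, hp₀⟩, ← section_mean (f := f) hM hp₀, finsum_eq_sum_of_fintype]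
      unfold td
      rw [Finset.sum_sub_distrib, sub_div]
    rw [Pool.Agent.L0h50.AB.mn_eq, e1, ← sub_div, ← Finset.sum_sub_distrib, norm_div, norm_pow,
      Complex.norm_natCast, div_le_iff₀ (by positivity)]
    have h1 : ∀ c : Coef M → ZMod p, ‖Pool.Agent.L0h50.AB.gt p₀ (td β P f M tr) P₀ p c - td β P f M tr p c‖ ≤
        (((b 1 : ℝ) + K) * (p : ℝ) ^ ((1 : ℝ) / 2)) * BB P₀ p₀ p c := by
      intro c
      by_cases hc : p < p₀ ∨ Pool.Agent.L0h50.AB.at' P₀ p c = 0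
      · have e2 : BB P₀ p₀ p c = 1 := by
          unfold BB
          exact if_pos hc
        rw [e2, mul_one]
        unfold Pool.Agent.L0h50.AB.gt
        rw [if_pos hc, zero_sub, norm_neg]
        unfold td
        refine (norm_sub_le _ _).trans ?_
        have a1 := norm_section (f := f) (M := M) h hp hp₀ c
        have a2 := hg.weight p hp hp₀ c
        rw [add_mul]
        linarith
      · have e2 : BB P₀ p₀ p c = 0 := by
          unfold BB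
          exact if_neg hc
        rw [e2, mul_zero]
        unfold Pool.Agent.L0h50.AB.gt
        rw [if_neg hc, sub_self, norm_zero]
    refine (norm_sum_le _ _).trans ((Finset.sum_le_sum fun c _ => h1 c).trans ?_)
    rw [← Finset.mul_sum]
    have h2 := Pool.Agent.L0h50.AB.bad_le (P := P₀) p₀ c0 hc0 p
    rw [← hA, EM, div_le_iff₀ (by positivity)] at h2
    calc _ ≤ (((b 1 : ℝ) + K) * (p : ℝ) ^ ((1 : ℝ) / 2)) * (A / p * (p : ℝ) ^ Fintype.card (Coef M)) := by gcongr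
      _ = ((b 1 : ℝ) + K) * A * ((p : ℝ) ^ ((1 : ℝ) / 2) * (p : ℝ)⁻¹) * (p : ℝ) ^ Fintype.card (Coef M) := by ring
      _ = _ := by
          rw [← Real.rpow_neg_one (p : ℝ), ← Real.rpow_add hp0]
          norm_num
  · have e1 : totalStar β P M p₀ tr p = 0 := by
      unfold totalStar
      rw [if_neg (fun h' => hp₀ h'.2)]
    have e2 : Pool.Agent.L0h50.AB.mn p₀ (td β P f M tr) P₀ p = 0 := by
      rw [Pool.Agent.L0h50.AB.mn_eq, div_eq_zero_iff]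
      left
      apply Finset.sum_eq_zero
      intro y _
      unfold Pool.Agent.L0h50.AB.gt
      rw [if_pos (Or.inl (by omega))]
    rw [e1, e2, sub_self, norm_zero]
    positivity

theorem norm_star (hg : IsGeneric β P f M p₀ P₀ tr K) (c : Coef M → ℤ) (p : ℕ) (hp : p.Prime) :
    ‖sectionStar β P f M p₀ P₀ tr c p‖ ≤ K := by
  rw [star_eq c p hp]
  exact norm_gt0 (bd_td hg) p hp _

theorem norm_total (hg : IsGeneric β P f M p₀ P₀ tr K) {b₂ : ℝ} (hb₂ : 0 ≤ b₂)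
    (h : ∀ p : ℕ, p.Prime → ‖Pool.Agent.L0h50.AB.mn p₀ (td β P f M tr) P₀ p - totalStar β P M p₀ tr p‖ ≤
        b₂ * (p : ℝ) ^ (-(1 / 2) : ℝ)) (p : ℕ) (hp : p.Prime) : ‖totalStar β P M p₀ tr p‖ ≤ K + b₂ := by
  have h1 := h p hp
  have h2 := norm_mn0 (bd_td hg) p hp
  have hp1 : (1 : ℝ) ≤ p := by exact_mod_cast hp.one_lt.le
  have h3 : (p : ℝ) ^ (-(1 / 2) : ℝ) ≤ 1 := Real.rpow_le_one_of_one_le_of_nonpos hp1 (by norm_num)
  have h4 : b₂ * (p : ℝ) ^ (-(1 / 2) : ℝ) ≤ b₂ * 1 := by gcongr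
  have h5 := norm_sub_le (Pool.Agent.L0h50.AB.mn p₀ (td β P f M tr) P₀ p)
    (Pool.Agent.L0h50.AB.mn p₀ (td β P f M tr) P₀ p - totalStar β P M p₀ tr p)
  rw [sub_sub_cancel] at h5
  linarith

/-- The partial sums for most members. -/
theorem most (h : IsFibration E P D p₀ b β) (hM : ∀ j, (0 : Fin k → ℕ) ∈ M j)
    (hg : IsGeneric β P f M p₀ P₀ tr K) (hP : P₀ ≠ 0) (ρ : ℕ) :
    ∃ C B : ℝ, 0 < C ∧ 0 ≤ B ∧ (∀ c p, p.Prime → ‖sectionStar β P f M p₀ P₀ tr c p‖ ≤ B) ∧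
      (∀ p, p.Prime → ‖totalStar β P M p₀ tr p‖ ≤ B) ∧
      ∀ (θ : ℕ → Fin ρ → ℂ), (∀ p i, ‖θ p i‖ ≤ 1) → ∀ (H : ℕ) (δ : ℝ), 0 < δ →
      ∃ X ⊆ box (Coef M) H, (X.card : ℝ) ≤ δ * (box (Coef M) H).card ∧ ∀ c ∈ box (Coef M) H \ X,
        ∀ x : ℕ, 1 ≤ x → 8 * x ^ 3 ≤ H →
        ‖∑ p ∈ PR x, (sectionStar β P f M p₀ P₀ tr c p - totalStar β P M p₀ tr p) * (∑ i, θ p i) *
          (Real.log p : ℂ)‖ ≤ Real.sqrt (C / δ) * (Real.sqrt x * (1 + Real.log x) ^ 3) := by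
  obtain ⟨b₂, hb₂, h2⟩ := mn_near h hM hg hP
  obtain ⟨C, hC, hc⟩ := core (bd_td hg) (totalStar β P M p₀ tr) b₂ hb₂ h2 ρ
  have hK := K_nonneg hg
  refine ⟨C, K + b₂, hC, by positivity, fun c p hp => (norm_star hg c p hp).trans (by linarith),
    norm_total hg hb₂ h2, fun θ hθ H δ hδ => ?_⟩
  obtain ⟨X, hX, hX1, hX2⟩ := hc θ hθ H δ hδ
  refine ⟨X, hX, hX1, fun c hcX x hx hxH => ?_⟩
  have h3 := hX2 c hcX x hx hxH
  have e : ∑ p ∈ PR x, (sectionStar β P f M p₀ P₀ tr c p - totalStar β P M p₀ tr p) * (∑ i, θ p i) *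
      (Real.log p : ℂ) = ∑ p ∈ PR x, (Pool.Agent.L0h50.AB.gt p₀ (td β P f M tr) P₀ p (red p c) -
        totalStar β P M p₀ tr p) * (∑ i, θ p i) * (Real.log p : ℂ) :=
    Finset.sum_congr rfl fun p hp => by rw [star_eq c p (mem_PR.mp hp).2]
  rw [e]
  exact h3

end

end Pool.Agent.L0h50.NA
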